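import Mathlib

/-!
# Mazur's 4-manifold: definitions
-/

set_option autoImplicit false

namespace Pool.Agent.Helper26.Maz

open Finset

/-- The circle of length four. -/
abbrev C4 : Type := AddCircle (4 : ℝ)

/-- The circle of length twenty-six. -/
abbrev C26 : Type := AddCircle (26 : ℝ)

instance : Fact ((0 : ℝ) < 4) := ⟨by norm_num⟩

instance : Fact ((0 : ℝ) < 26) := ⟨by norm_num⟩

/-- The closed unit ball of dimension three. -/
abbrev B3 : Type := Metric.closedBall (0 : EuclideanSpace ℝ (Fin 3)) 1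

/-- The unit sphere of dimension two. -/
abbrev S2 : Type := Metric.sphere (0 : EuclideanSpace ℝ (Fin 3)) 1

/-- The closed unit disk. -/
abbrev D2 : Type := Metric.closedBall (0 : ℂ) 1

/-- The centre of the disk. -/
def d0 : D2 := ⟨0, by simp⟩

/-- The point `1` of the disk. -/
def d1 : D2 := ⟨1, by simp⟩

/-- The parametrisation of the boundary of the disk. -/
noncomputable def bz (t : C26) : D2 := ⟨AddCircle.toCircle t, by simp [Circle.norm_coe]⟩

/-- Stereographic projection from the plane to the sphere. -/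
noncomputable def st (x z : ℝ) : S2 :=
  ⟨!₂[2 * x / (1 + x ^ 2 + z ^ 2), 2 * z / (1 + x ^ 2 + z ^ 2),
    (x ^ 2 + z ^ 2 - 1) / (1 + x ^ 2 + z ^ 2)], by
    have h : 0 < 1 + x ^ 2 + z ^ 2 := by positivity
    rw [mem_sphere_zero_iff_norm, EuclideanSpace.norm_eq, Real.sqrt_eq_one]
    simp only [Fin.sum_univ_three, Real.norm_eq_abs, sq_abs]
    simp only [Matrix.cons_val]
    field_simp
    ring⟩

/-- The embedding of `S¹ × ℝ²` into `S¹ × S²`. -/
noncomputable def emb (p : C4 × ℝ × ℝ) : C4 × S2 := (p.1, st p.2.1 p.2.2)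

/-- The steps of the closed lattice polygon `K` in `(ℝ/4ℤ) × ℝ²`; the first coordinate is the
coordinate of the circle, and the third one is regarded as the height. In the projection to the
annulus `(ℝ/4ℤ) × ℝ` one meets, along the bar made by the steps `1, 2, 3` at the height `1`, first a
crossing with the part made by the steps `19, 20, 21` at the height `2`, and then a clasp with the
part made by the steps `8, ..., 15`, which runs over the bar at the height `2` and returns under it at
the height `0`. -/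
def steps : Fin 26 → ℤ × ℤ × ℤ :=
  ![(1, 0, 0), (0, 1, 0), (0, 1, 0), (0, 1, 0), (-1, 0, 0), (-1, 0, 0), (-1, 0, 0), (0, 0, 1),
    (0, -1, 0), (-1, 0, 0), (-1, 0, 0), (0, 0, -1), (0, 0, -1), (1, 0, 0), (1, 0, 0), (1, 0, 0),
    (0, -1, 0), (0, 0, 1), (0, 0, 1), (1, 0, 0), (1, 0, 0), (1, 0, 0), (0, -1, 0), (0, 0, -1),
    (1, 0, 0), (1, 0, 0)]

/-- The closed polygon in `(ℝ/4ℤ) × ℝ²` which starts at the point `p` and makes the step `s i`
between the times `i` and `i + 1`. -/
noncomputable def polygon (s : Fin 26 → ℤ × ℤ × ℤ) (p : ℝ × ℝ × ℝ) : C26 → C4 × ℝ × ℝ :=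
  AddCircle.liftIco 26 0 fun t =>
    ((p.1 + ∑ i : Fin 26, max 0 (min 1 (t - i)) * (s i).1 : ℝ),
      p.2.1 + ∑ i : Fin 26, max 0 (min 1 (t - i)) * (s i).2.1,
      p.2.2 + ∑ i : Fin 26, max 0 (min 1 (t - i)) * (s i).2.2)

/-- Mazur's curve, translated by the vector `(v, v, v)`. For `v = 0` this is Mazur's curve `K` in the
solid torus, starting at the point `(0, 0, 1)`; for `v = 1 / 2` it is a parallel of `K` with linking
number zero with `K`. -/
noncomputable def knot (v : ℝ) : C26 → C4 × ℝ × ℝ := polygon steps (v, v, 1 + v)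

/-- Mazur's curve in `S¹ × ℝ²`. -/
def K0 : Set (C4 × ℝ × ℝ) := Set.range (knot 0)

/-- Mazur's curve in `S¹ × S²`. -/
def KM : Set (C4 × S2) := emb '' K0

/-- Points of the sphere as points of the ball. -/
def toB (p : C4 × S2) : C4 × B3 := (p.1, ⟨p.2.1, Metric.sphere_subset_closedBall p.2.2⟩)

/-- A parametrised tubular neighbourhood of Mazur's curve in `S¹ × S²`, with framing zero: `φ` is an
embedding, its core is the curve, and its parallel curve `φ (t, 1)` is homotopic to the parallel
`knot (1/2)` in the complement of the curve. -/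
def IsTube (φ : C26 × D2 → C4 × S2) : Prop :=
  Continuous φ ∧ Function.Injective φ ∧ IsOpen (φ '' {p | ‖(p.2 : ℂ)‖ < 1}) ∧
    (∀ t, φ (t, d0) = emb (knot 0 t)) ∧
    ∃ G : C26 × unitInterval → C4 × S2, Continuous G ∧ (∀ t, G (t, 0) = φ (t, d1)) ∧
      (∀ t, G (t, 1) = emb (knot (1 / 2) t)) ∧ ∀ p, G p ∉ KM

/-- The space `W` is obtained from `S¹ × D³` by attaching the 2-handle `D² × D²` along `φ`. -/
def IsAttached (W : Type*) [TopologicalSpace W] (φ : C26 × D2 → C4 × S2) (iA : C4 × B3 → W)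
    (iH : D2 × D2 → W) : Prop :=
  Continuous iA ∧ Function.Injective iA ∧ Continuous iH ∧ Function.Injective iH ∧
    (∀ w, w ∈ Set.range iA ∪ Set.range iH) ∧
    ∀ a h, iA a = iH h ↔ ∃ t s, a = toB (φ (t, s)) ∧ h = (bz t, s)

/-- `W` is Mazur's 4-manifold: `S¹ × D³` with a 2-handle attached along Mazur's curve with
framing zero. -/
def IsMazur (W : Type*) [TopologicalSpace W] : Prop :=
  T2Space W ∧ ∃ φ iA iH, IsTube φ ∧ IsAttached W φ iA iH

/-- The boundary of the handlebody. -/
def bdW {W : Type*} (φ : C26 × D2 → C4 × S2) (iA : C4 × B3 → W) (iH : D2 × D2 → W) : Set W :=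
  (iA ∘ toB) '' (φ '' {p | ‖(p.2 : ℂ)‖ < 1})ᶜ ∪ iH '' {q | ‖(q.2 : ℂ)‖ = 1}

/-- A holonomy on a subset: elements of a group for the paths, multiplicative and invariant under
homotopies, as long as one stays in the subset. -/
structure HolOn {X : Type*} [TopologicalSpace X] (S : Set X) (Γ : Type*) [Group Γ] where
  /-- the element of a path -/
  hol : ∀ {x y : X}, Path x y → Γ
  trans : ∀ {x y z : X} (γ : Path x y) (δ : Path y z), (∀ t, γ t ∈ S) → (∀ t, δ t ∈ S) →
    hol (γ.trans δ) = hol γ * hol δ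
  homot : ∀ {x y : X} (γ γ' : Path x y) (h : Path.Homotopy γ γ'), (∀ p, h p ∈ S) →
    hol γ = hol γ'

/-- A trivial holonomy. -/
def HolOn.Triv {X : Type*} [TopologicalSpace X] {S : Set X} {Γ : Type*} [Group Γ]
    (H : HolOn S Γ) : Prop :=
  ∃ p : X → Γ, ∀ {x y : X} (γ : Path x y), (∀ t, γ t ∈ S) → H.hol γ = (p x)⁻¹ * p y

/-- The holonomy of a closed curve parametrised by the circle of length `26`. -/
noncomputable def HolOn.loop {X : Type*} [TopologicalSpace X] {S : Set X} {Γ : Type*} [Group Γ]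
    (H : HolOn S Γ) (ℓ : C(C26, X)) : Γ :=
  H.hol (x := ℓ 0) (y := ℓ 0)
    { toFun := fun t => ℓ ((26 * (t : ℝ) : ℝ) : C26)
      continuous_toFun := by fun_prop
      source' := by simp
      target' := by
        have h : ((26 : ℝ) : C26) = 0 := AddCircle.coe_period 26
        simp [h] }

/-- Restriction of a holonomy to a smaller subset. -/
def HolOn.restrict {X : Type*} [TopologicalSpace X] {Γ : Type*} [Group Γ] {S T : Set X}
    (H : HolOn S Γ) (hT : T ⊆ S) : HolOn T Γ where
  hol γ := H.hol γ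
  trans γ δ h h' := H.trans γ δ (fun t => hT (h t)) (fun t => hT (h' t))
  homot γ γ' h h' := H.homot γ γ' h (fun p => hT (h' p))

/-- The rescaling of the circle of length `26` to the circle of length `4`. -/
noncomputable def rho : C26 ≃ₜ C4 := AddCircle.homeomorphAddCircle 26 4 (by norm_num) (by norm_num)

/-- A point with a half space chart, in which `D` is the boundary. -/
def HalfPt {W : Type*} [TopologicalSpace W] (D : Set W) (w : W) : Prop :=
  ∃ (N : Set W) (U : Set (EuclideanSpace ℝ (Fin 4)))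
    (e : N ≃ₜ (U ∩ {x | 0 ≤ x 0} : Set (EuclideanSpace ℝ (Fin 4)))), IsOpen N ∧ w ∈ N ∧
    IsOpen U ∧ ∀ v : N, (v : W) ∈ D ↔ (e v : EuclideanSpace ℝ (Fin 4)) 0 = 0

end Pool.Agent.Helper26.Maz
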