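import Mathlib
import Pool.Agent.Helper26.Maz.Defs

/-!
# The cell structure of `(ℝ/4ℤ) × ℝ²` given by the lattice

The lines `x = 0, 1, 2, 3` and `z = 0, 1, 2` and the points `0, 1, 2, 3` of the circle cut the space
into blocks.
-/

set_option autoImplicit false

namespace Pool.Agent.Helper26.Maz

/-- The blocks: `(j, a, b)` is the set of points with `y` in `[j, j+1]`, `x` in the interval number `a`
of `(-∞,0], [0,1], [1,2], [2,3], [3,∞)` and `z` in the interval number `b` of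
`(-∞,0], [0,1], [1,2], [2,∞)`. -/
abbrev Blk : Type := ZMod 4 × Fin 5 × Fin 4

/-- A block containing the point. -/
noncomputable def home (p : C4 × ℝ × ℝ) : Blk :=
  (((⌊((AddCircle.equivIco 4 0 p.1 : Set.Ico (0 : ℝ) (0 + 4)) : ℝ)⌋ : ℤ) : ZMod 4),
    (if p.2.1 < 0 then 0 else if p.2.1 < 1 then 1 else if p.2.1 < 2 then 2 else
      if p.2.1 < 3 then 3 else 4),
    (if p.2.2 < 0 then 0 else if p.2.2 < 1 then 1 else if p.2.2 < 2 then 2 else 3))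

/-- The cells. First coordinate: `2 j` is the point `j` of the circle, `2 j + 1` the interval
`(j, j+1)`. Second and third coordinates: `2 a` is the open interval number `a`, and `2 a + 1` is the
point `a`. -/
abbrev Cell : Type := ZMod 8 × Fin 9 × Fin 7

/-- The block `c` contains the cell `σ`. -/
def inc (σ : Cell) (c : Blk) : Prop :=
  (σ.1 = 2 * (c.1.val : ZMod 8) ∨ σ.1 = 2 * (c.1.val : ZMod 8) + 1 ∨
      σ.1 = 2 * (c.1.val : ZMod 8) + 2) ∧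
    (2 * c.2.1.val ≤ σ.2.1.val + 1 ∧ σ.2.1.val ≤ 2 * c.2.1.val + 1) ∧
    (2 * c.2.2.val ≤ σ.2.2.val + 1 ∧ σ.2.2.val ≤ 2 * c.2.2.val + 1)

instance (σ : Cell) (c : Blk) : Decidable (inc σ c) := by unfold inc; infer_instance

/-- The cells of the curve `K`. -/
def Kc : List Cell :=
  [(0, 1, 3), (1, 1, 3), (2, 1, 3), (2, 2, 3), (2, 3, 3), (2, 4, 3), (2, 5, 3), (2, 6, 3),
    (2, 7, 3), (1, 7, 3), (0, 7, 3), (7, 7, 3), (6, 7, 3), (5, 7, 3), (4, 7, 3), (4, 7, 4),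
    (4, 7, 5), (4, 6, 5), (4, 5, 5), (3, 5, 5), (2, 5, 5), (1, 5, 5), (0, 5, 5), (0, 5, 4),
    (0, 5, 3), (0, 5, 2), (0, 5, 1), (1, 5, 1), (2, 5, 1), (3, 5, 1), (4, 5, 1), (5, 5, 1),
    (6, 5, 1), (6, 4, 1), (6, 3, 1), (6, 3, 2), (6, 3, 3), (6, 3, 4), (6, 3, 5), (7, 3, 5),
    (0, 3, 5), (1, 3, 5), (2, 3, 5), (3, 3, 5), (4, 3, 5), (4, 2, 5), (4, 1, 5), (4, 1, 4),
    (4, 1, 3), (5, 1, 3), (6, 1, 3), (7, 1, 3)]

/-- The open star of a cell. -/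
def star (σ : Cell) : Set (C4 × ℝ × ℝ) :=
  {p | (∃ y : ℝ, p.1 = (y : C4) ∧ |y - (σ.1.val : ℝ) / 2| < if σ.1.val % 2 = 0 then 1 else 1 / 2) ∧
    ((2 ≤ σ.2.1.val → ((σ.2.1.val / 2 : ℕ) : ℝ) - 1 < p.2.1) ∧
      (σ.2.1.val ≤ 6 → p.2.1 < (((σ.2.1.val + 1) / 2 : ℕ) : ℝ))) ∧
    ((2 ≤ σ.2.2.val → ((σ.2.2.val / 2 : ℕ) : ℝ) - 1 < p.2.2) ∧
      (σ.2.2.val ≤ 4 → p.2.2 < (((σ.2.2.val + 1) / 2 : ℕ) : ℝ)))}

/-- Labels on the pairs of blocks which are flat around every cell outside `K`. -/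
def Flat3 {Γ : Type*} [Group Γ] (g : Blk → Blk → Γ) : Prop :=
  ∀ σ : Cell, σ ∉ Kc → ∀ c c' c'' : Blk, inc σ c → inc σ c' → inc σ c'' →
    g c c' * g c' c'' = g c c''

/-- Trivial labels. -/
def Triv3 {Γ : Type*} [Group Γ] (g : Blk → Blk → Γ) : Prop :=
  ∃ h : Blk → Γ, ∀ σ : Cell, σ ∉ Kc → ∀ c c' : Blk, inc σ c → inc σ c' → g c c' = (h c)⁻¹ * h c'

/-- The blocks met by the parallel curve `knot (1/2)`. -/
def seqK : Fin 27 → Blk :=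
  ![(0, 1, 2), (1, 1, 2), (1, 2, 2), (1, 3, 2), (1, 4, 2), (0, 4, 2), (3, 4, 2), (2, 4, 2),
    (2, 4, 3), (2, 3, 3), (1, 3, 3), (0, 3, 3), (0, 3, 2), (0, 3, 1), (1, 3, 1), (2, 3, 1),
    (3, 3, 1), (3, 2, 1), (3, 2, 2), (3, 2, 3), (0, 2, 3), (1, 2, 3), (2, 2, 3), (2, 1, 3),
    (2, 1, 2), (3, 1, 2), (0, 1, 2)]

/-- The steps of a rectangle around all the lattice points. -/
def ringSteps : Fin 26 → ℤ × ℤ × ℤ :=
  ![(0, 1, 0), (0, 1, 0), (0, 1, 0), (0, 1, 0), (0, 0, 1), (0, 0, 1), (0, 0, 1), (0, -1, 0),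
    (0, -1, 0), (0, -1, 0), (0, -1, 0), (0, 0, -1), (0, 0, -1), (0, 0, -1), (0, 0, 0), (0, 0, 0),
    (0, 0, 0), (0, 0, 0), (0, 0, 0), (0, 0, 0), (0, 0, 0), (0, 0, 0), (0, 0, 0), (0, 0, 0),
    (0, 0, 0), (0, 0, 0)]

/-- A rectangle around all the lattice points. -/
noncomputable def ring : C26 → C4 × ℝ × ℝ := polygon ringSteps (1 / 2, -1 / 2, -1 / 2)

/-- The blocks met by the rectangle. -/
def seqR : Fin 27 → Blk :=
  ![(0, 0, 0), (0, 1, 0), (0, 2, 0), (0, 3, 0), (0, 4, 0), (0, 4, 1), (0, 4, 2), (0, 4, 3),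
    (0, 3, 3), (0, 2, 3), (0, 1, 3), (0, 0, 3), (0, 0, 2), (0, 0, 1), (0, 0, 0), (0, 0, 0),
    (0, 0, 0), (0, 0, 0), (0, 0, 0), (0, 0, 0), (0, 0, 0), (0, 0, 0), (0, 0, 0), (0, 0, 0),
    (0, 0, 0), (0, 0, 0), (0, 0, 0)]

/-- The product of the labels along a sequence of blocks. -/
def prodL {Γ : Type*} [Group Γ] (g : Blk → Blk → Γ) (c : Fin 27 → Blk) : Γ :=
  (List.ofFn fun i : Fin 26 => g (c i.castSucc) (c i.succ)).prod

/-- The outer region. -/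
def outerR : Set (C4 × ℝ × ℝ) := {p | p.2.1 < 0 ∨ 3 < p.2.1 ∨ p.2.2 < 0 ∨ 2 < p.2.2}

/-- The outer blocks. -/
def outerB (c : Blk) : Prop := c.2.1 = 0 ∨ c.2.1 = 4 ∨ c.2.2 = 0 ∨ c.2.2 = 3

/-- Labels on the circle: `t` for the passage from the interval `[3, 4]` to `[0, 1]`. -/
def lab4 {Γ : Type*} [Group Γ] (t : Γ) (a b : ZMod 4) : Γ :=
  if a = 3 ∧ b = 0 then t else if a = 0 ∧ b = 3 then t⁻¹ else 1

end Pool.Agent.Helper26.Maz
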