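import Mathlib
import Pool.Agent.Helper26.LC.Gamma

/-!
# Relations in the unit quaternions
-/

set_option autoImplicit false
set_option linter.unusedSimpArgs false

namespace Pool.Agent.Helper26.Maz

open Pool.Agent.Helper26.LC

theorem exists_ta : ∃ t a : Q, t ≠ 1 ∧
    t⁻¹ * (a * (t⁻¹ * (a⁻¹ * (t * (a⁻¹ * (t * (a⁻¹ * (t * (a⁻¹ * (t⁻¹ * (a * (t⁻¹ * a)))))))))))) = 1 ∧
    t⁻¹ * (a⁻¹ * (t * (a⁻¹ * (t⁻¹ * (a * (t⁻¹ * (a⁻¹ * (t * (a⁻¹ * (t * (a * (t⁻¹ * (a * (a *
      (t⁻¹ * (a * (t * t))))))))))))))))) = 1 ∧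
    t⁻¹ * (a⁻¹ * (t * (a⁻¹ * (t⁻¹ * (a * (t⁻¹ * (a * (t * (a⁻¹ * (t * (a * (t⁻¹ * (a * (t⁻¹ *
      (a⁻¹ * (t * (a⁻¹ * t))))))))))))))))) = 1 := by
  obtain ⟨x, y, hx1, hx2, hy5, hxy7⟩ := exists_xy
  obtain ⟨p, hp⟩ : ∃ p, p = x * y := ⟨_, rfl⟩
  obtain ⟨q, hq⟩ : ∃ q, q = p⁻¹ := ⟨_, rfl⟩
  rw [← hp] at hxy7
  have hxx : x * x = -1 := by rw [← sq, hx2]
  have hxi : x⁻¹ = -x := inv_eq_of_mul_eq_one_right (by rw [mul_neg, hxx, neg_neg])
  have hy : y = -(x * p) := by
    rw [hp, ← mul_assoc, hxx, neg_mul, one_mul, neg_neg]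
  have h1' : ∀ g, x * (x * g) = -g := fun g => by rw [← mul_assoc, hxx, neg_mul, one_mul]
  have h2 : p * q = 1 := by rw [hq, mul_inv_cancel]
  have h3 : q * p = 1 := by rw [hq, inv_mul_cancel]
  have h2' : ∀ g, p * (q * g) = g := fun g => by rw [← mul_assoc, h2, one_mul]
  have h3' : ∀ g, q * (p * g) = g := fun g => by rw [← mul_assoc, h3, one_mul]
  have hqi : q⁻¹ = p := by rw [hq, inv_inv]
  have hpi : p⁻¹ = q := hq.symm
  have h4 : p * (p * (p * p)) = -(q * (q * q)) := by
    have h : p ^ 7 * (q * (q * q)) = -1 * (q * (q * q)) := by rw [hxy7]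
    have h' : p ^ 7 * (q * (q * q)) = p * (p * (p * p)) := by
      have h6 : p ^ 7 = p * (p * (p * (p * (p * (p * p))))) := by
        simp only [pow_succ, pow_zero, one_mul, mul_assoc]
      rw [h6]
      simp only [mul_assoc, h2', h2, mul_one]
    rw [← h', h, neg_mul, one_mul]
  have h4' : ∀ g, p * (p * (p * (p * g))) = -(q * (q * (q * g))) := fun g => by
    have h : p * (p * (p * p)) * g = -(q * (q * q)) * g := by rw [h4]
    simpa only [mul_assoc, neg_mul] using h
  have h5 : q * (q * (q * q)) = -(p * (p * p)) := by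
    have h : (p * (p * (p * p)))⁻¹ = (-(q * (q * q)))⁻¹ := by rw [h4]
    simpa only [mul_inv_rev, Q.inv_neg', hpi, hqi, mul_assoc] using h
  have h5' : ∀ g, q * (q * (q * (q * g))) = -(p * (p * (p * g))) := fun g => by
    have h : q * (q * (q * q)) * g = -(p * (p * p)) * g := by rw [h5]
    simpa only [mul_assoc, neg_mul] using h
  have h7 : x * (p * (x * (p * x))) = q * (x * (q * (x * q))) := by
    have h : (x * (p * (x * (p * x)))) * (p * (x * (p * (x * p)))) = 1 := by
      have h6 : (x * p) ^ 5 = 1 := by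
        have h8 : (-(x * p)) ^ 5 = -1 := by rw [← hy]; exact hy5
        rw [Odd.neg_pow (by decide)] at h8
        exact neg_injective h8
      have h8 : (x * p) ^ 5 = (x * (p * (x * (p * x)))) * (p * (x * (p * (x * p)))) := by
        simp only [pow_succ, pow_zero, one_mul, mul_assoc]
      rw [← h8, h6]
    rw [eq_inv_of_mul_eq_one_left h]
    simp only [mul_inv_rev, hpi, hxi, mul_neg, neg_mul, neg_neg, mul_assoc]
  have h7' : ∀ g, x * (p * (x * (p * (x * g)))) = q * (x * (q * (x * (q * g)))) := fun g => by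
    have h : x * (p * (x * (p * x))) * g = q * (x * (q * (x * q))) * g := by rw [h7]
    simpa only [mul_assoc, neg_mul] using h
  have h6 : x * (q * (x * (q * x))) = -(p * (x * (p * (x * p)))) := by
    have h : (x * (p * (x * (p * x))))⁻¹ = (q * (x * (q * (x * q))))⁻¹ := by rw [h7]
    simp only [mul_inv_rev, hpi, hqi, hxi, mul_neg, neg_mul, neg_neg, mul_assoc] at h
    rw [← h, neg_neg]
  have h6' : ∀ g, x * (q * (x * (q * (x * g)))) = -(p * (x * (p * (x * (p * g))))) := fun g => by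
    have h : x * (q * (x * (q * x))) * g = -(p * (x * (p * (x * p)))) * g := by rw [h6]
    simpa only [mul_assoc, neg_mul] using h
  obtain ⟨t, ht⟩ : ∃ t, t = p * (p * x) := ⟨_, rfl⟩
  obtain ⟨a, ha⟩ : ∃ a, a = -(q * (q * x)) := ⟨_, rfl⟩
  have hti : t⁻¹ = -(x * (q * q)) := by
    rw [ht]
    simp only [mul_inv_rev, hpi, hxi, mul_neg, neg_mul, mul_assoc]
  have hai : a⁻¹ = x * (p * p) := by
    rw [ha]
    simp only [Q.inv_neg', mul_inv_rev, hqi, hxi, mul_neg, neg_mul, neg_neg, mul_assoc]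
  refine ⟨t, a, ?_, ?_, ?_, ?_⟩
  · intro h
    rw [ht] at h
    have h8 : x = q * q := by
      have h9 : q * (q * (p * (p * x))) = q * (q * 1) := by rw [h]
      simpa only [h3', mul_one] using h9
    have h9 : q * (q * (q * q)) = -1 := by
      have h10 := hxx
      rw [h8] at h10
      simpa only [mul_assoc] using h10
    rw [h5] at h9
    have h10 : p * (p * p) = 1 := neg_injective h9
    have h11 : p * (p * (p * (p * (p * (p * p))))) = -1 := by
      rw [← hxy7]
      simp only [pow_succ, pow_zero, one_mul, mul_assoc]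
    have h12 : p = -1 := by
      have h13 : p * (p * (p * (p * (p * (p * p))))) = (p * (p * p)) * (p * (p * p)) * p := by
        simp only [mul_assoc]
      rw [h13, h10, one_mul, one_mul] at h11
      exact h11
    rw [h12] at h10
    simp only [neg_mul, mul_neg, one_mul, neg_neg] at h10
    exact Q.neg_ne 1 h10
  · simp only [hti, hai]
    simp only [ht, ha]
    simp only [mul_neg, neg_mul, neg_neg, mul_assoc,
        h1', hxx, h2, h2', h3, h3', h4, h4', h5, h5', h6, h6', h7, h7', mul_one, one_mul]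
  · simp only [hti, hai]
    simp only [ht, ha]
    simp only [mul_neg, neg_mul, neg_neg, mul_assoc,
        h1', hxx, h2, h2', h3, h3', h4, h4', h5, h5', h6, h6', h7, h7', mul_one, one_mul]
  · simp only [hti, hai]
    simp only [ht, ha]
    simp only [mul_neg, neg_mul, neg_neg, mul_assoc,
        h1', hxx, h2, h2', h3, h3', h4, h4', h5, h5', h6, h6', h7, h7', mul_one, one_mul]

end Pool.Agent.Helper26.Maz
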