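import Mathlib
import Pool.Agent.Helper26.Maz.Cells
import Pool.Agent.Helper26.Maz.LabQ2

/-!
# Quaternion labels on the blocks
-/

set_option autoImplicit false

namespace Pool.Agent.Helper26.Maz

open Pool.Agent.Helper26.LC

/-- Words in two letters (`true`: the letter `t`, `false`: the letter `a`; the second component is the
sign of the exponent). -/
abbrev Wd : Type := List (Bool × Bool)

/-- The words which occur. -/
def wds : List Wd :=
  [[], [(false, false)], [(true, false)], [(false, true)],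
    [(true, false), (false, true), (true, true)],
    [(true, false), (false, false), (true, true), (false, false)],
    [(false, true), (true, false), (false, true), (true, true)],
    [(true, false), (true, false), (false, true), (true, true), (true, true)],
    [(true, false), (true, false), (false, false), (true, true), (false, false), (true, true)],
    [(true, false), (false, true), (true, false), (false, true), (true, true), (true, true)],
    [(true, false), (false, false), (true, true), (false, false), (true, false), (false, true),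
      (true, true)],
    [(true, false), (false, false), (true, true), (false, false), (true, false), (false, true),
      (true, false), (false, false), (true, true), (false, false), (true, true), (false, true),
      (true, false), (false, true), (true, true)]]

/-- labels of the faces orthogonal to the circle -/
def tY : List ℕ :=
  [0, 0, 0, 0, 0, 1, 0, 0, 0, 10, 0, 0, 0, 5, 0, 0, 0, 0, 0, 0, 0, 0, 0, 0, 0, 4, 4, 0, 0, 0, 0, 0, 0,
    9, 9, 0, 0, 0, 0, 0, 0, 0, 0, 0, 0, 0, 0, 0, 0, 0, 0, 0, 0, 0, 0, 0, 0, 0, 0, 0, 2, 2, 2, 2, 2, 2,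
    2, 2, 2, 2, 2, 2, 2, 2, 2, 2, 2, 2, 2, 2]

/-- labels of the vertical faces -/
def tX : List ℕ :=
  [0, 3, 0, 0, 0, 4, 4, 0, 0, 11, 8, 0, 0, 5, 0, 0, 0, 0, 0, 0, 0, 0, 0, 0, 0, 4, 4, 0, 0, 8, 8, 0, 0,
    0, 0, 0, 0, 0, 0, 0, 0, 4, 0, 0, 0, 0, 0, 0, 0, 0, 0, 0, 0, 8, 0, 0, 0, 0, 0, 0, 0, 4, 0, 0, 0, 7,
    7, 0, 0, 0, 0, 0, 0, 8, 0, 0, 0, 0, 0, 0]

/-- labels of the horizontal faces -/
def tZ : List ℕ :=
  [0, 0, 0, 0, 3, 0, 0, 0, 6, 0, 0, 0, 6, 0, 0, 0, 0, 0, 0, 0, 0, 0, 0, 0, 0, 0, 0, 0, 4, 0, 0, 0, 0,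
    0, 0, 0, 0, 0, 0, 0, 0, 0, 0, 0, 4, 0, 0, 0, 4, 0, 0, 0, 9, 0, 0, 0, 0, 0, 0, 0, 0, 0, 0, 0, 4, 0,
    0, 0, 9, 0, 0, 0, 9, 0, 0, 0, 0, 0, 0, 0]

/-- a word of a table -/
def look (T : List ℕ) (i : ℕ) : Wd := wds.getD (T.getD i 0) []

/-- The word of a pair of blocks, by changing the coordinates one after another. -/
def wd (c c' : Blk) : Wd :=
  (if c'.1.val = (c.1.val + 1) % 4 then look tY (20 * c.1.val + 4 * c.2.1.val + c.2.2.val)
    else if c.1.val = (c'.1.val + 1) % 4 then
      FreeGroup.invRev (look tY (20 * c'.1.val + 4 * c.2.1.val + c.2.2.val)) else []) ++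
  ((if c'.2.1.val = c.2.1.val + 1 then look tX (20 * c'.1.val + 4 * c.2.1.val + c.2.2.val)
    else if c.2.1.val = c'.2.1.val + 1 then
      FreeGroup.invRev (look tX (20 * c'.1.val + 4 * c'.2.1.val + c.2.2.val)) else []) ++
  (if c'.2.2.val = c.2.2.val + 1 then look tZ (20 * c'.1.val + 4 * c'.2.1.val + c.2.2.val)
    else if c.2.2.val = c'.2.2.val + 1 then
      FreeGroup.invRev (look tZ (20 * c'.1.val + 4 * c'.2.1.val + c'.2.2.val)) else []))

/-- the intervals of the circle around a cell of the circle -/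
def bl1 (s : ZMod 8) : List (ZMod 4) :=
  if s.val % 2 = 1 then [((s.val / 2 : ℕ) : ZMod 4)] else
    [(((s.val + 6) / 2 : ℕ) : ZMod 4), ((s.val / 2 : ℕ) : ZMod 4)]

/-- the intervals around a cell of the line -/
def bl2 (s : Fin 9) : List (Fin 5) :=
  [0, 1, 2, 3, 4].filter fun a : Fin 5 => 2 * a.val ≤ s.val + 1 ∧ s.val ≤ 2 * a.val + 1

/-- the intervals around a cell of the line -/
def bl3 (s : Fin 7) : List (Fin 4) :=
  [0, 1, 2, 3].filter fun a : Fin 4 => 2 * a.val ≤ s.val + 1 ∧ s.val ≤ 2 * a.val + 1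

/-- The blocks around a cell. -/
def bls (σ : Cell) : List Blk := (bl1 σ.1) ×ˢ ((bl2 σ.2.1) ×ˢ (bl3 σ.2.2))

theorem mem_bl1 : ∀ (s : ZMod 8) (a : ZMod 4),
    (s = 2 * (a.val : ZMod 8) ∨ s = 2 * (a.val : ZMod 8) + 1 ∨ s = 2 * (a.val : ZMod 8) + 2) →
      a ∈ bl1 s := by decide

theorem mem_bl2 : ∀ (s : Fin 9) (a : Fin 5),
    (2 * a.val ≤ s.val + 1 ∧ s.val ≤ 2 * a.val + 1) → a ∈ bl2 s := by decide

theorem mem_bl3 : ∀ (s : Fin 7) (a : Fin 4),
    (2 * a.val ≤ s.val + 1 ∧ s.val ≤ 2 * a.val + 1) → a ∈ bl3 s := by decide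

theorem mem_bls {σ : Cell} {c : Blk} (h : inc σ c) : c ∈ bls σ := by
  unfold inc at h
  unfold bls
  have h1 := List.mem_product.2 ⟨mem_bl2 _ _ h.2.1, mem_bl3 _ _ h.2.2⟩
  exact List.mem_product.2 ⟨mem_bl1 _ _ h.1, h1⟩

/-- the first block around a cell -/
def bl0 (σ : Cell) : Blk := (bls σ).headD (0, 0, 0)

/-- check of a pair -/
def chk (σ : Cell) : Bool :=
  (bls σ).all fun c => (bls σ).all fun c' =>
    FreeGroup.reduce (FreeGroup.invRev (wd (bl0 σ) c) ++ wd (bl0 σ) c') = FreeGroup.reduce (wd c c')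

set_option maxRecDepth 100000 in
theorem chk_all : ∀ (s : ZMod 8) (a : Fin 9) (b : Fin 7), (s, a, b) ∉ (((1, 5, 3) : Cell) :: Kc) →
    chk (s, a, b) = true := by
  decide +kernel

/-- The word of a sequence of blocks. -/
def wdL (c : Fin 27 → Blk) : Wd := (List.ofFn fun i : Fin 26 => wd (c i.castSucc) (c i.succ)).flatten

/-- The word of the parallel curve. -/
theorem wd_seqK : FreeGroup.reduce (wdL seqK) =
    [(true, false), (false, true), (true, false), (false, false), (true, true), (false, false),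
      (true, true), (false, false), (true, true), (false, false), (true, false), (false, true),
      (true, false), (false, true)] := by
  decide +kernel

/-- outer check -/
def chkO (σ : Cell) : Bool :=
  (bls σ).all fun c => (bls σ).all fun c' => !(decide (c.2.1 = 0 ∨ c.2.1 = 4 ∨ c.2.2 = 0 ∨ c.2.2 = 3)) ||
    !(decide (c'.2.1 = 0 ∨ c'.2.1 = 4 ∨ c'.2.2 = 0 ∨ c'.2.2 = 3)) ||
    (FreeGroup.reduce (wd c c') = if c.1 = 3 ∧ c'.1 = 0 then [(true, false)] else
      if c.1 = 0 ∧ c'.1 = 3 then [(true, true)] else [])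

theorem chkO_all : ∀ (s : ZMod 8) (a : Fin 9) (b : Fin 7), (s, a, b) ∉ Kc →
    chkO (s, a, b) = true := by
  decide +kernel

/-- the exceptional cell -/
theorem bls_exc : bls (1, 5, 3) = [(0, 2, 1), (0, 2, 2), (0, 3, 1), (0, 3, 2)] := by
  decide


/-- the first relator at the exceptional cell -/
def r1 : Wd :=
  [(true, false), (false, false), (true, true), (false, false), (true, false), (false, true),
    (true, false), (false, false), (true, true), (false, false), (true, true), (false, true),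
    (true, false), (false, true), (false, true), (true, false), (false, true), (true, true),
    (true, true)]

/-- the second relator at the exceptional cell -/
def r2 : Wd :=
  [(true, false), (false, false), (true, true), (false, false), (true, false), (false, true),
    (true, false), (false, true), (true, true), (false, false), (true, true), (false, true),
    (true, false), (false, true), (true, false), (false, false), (true, true), (false, false),
    (true, true)]

/-- the word of the parallel curve -/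
def rK : Wd :=
  [(true, false), (false, true), (true, false), (false, false), (true, true), (false, false),
    (true, true), (false, false), (true, true), (false, false), (true, false), (false, true),
    (true, false), (false, true)]

theorem chk_exc : ((bls (1, 5, 3)).all fun c => (bls (1, 5, 3)).all fun c' => decide
    (FreeGroup.reduce (FreeGroup.invRev (wd (bl0 (1, 5, 3)) c) ++ wd (bl0 (1, 5, 3)) c' ++
      FreeGroup.invRev (wd c c')) ∈ ([[], r1, r2] : List Wd))) = true := by
  decide +kernel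

section eval

variable (t a : Q)

/-- Evaluation of words. -/
noncomputable def ev : FreeGroup Bool →* Q := FreeGroup.lift fun b => if b then t else a

theorem ev_red {w w' : Wd} (h : FreeGroup.reduce w = FreeGroup.reduce w') :
    ev t a (FreeGroup.mk w) = ev t a (FreeGroup.mk w') := by
  rw [FreeGroup.reduce.exact h]

/-- The labels. -/
noncomputable def gQ (c c' : Blk) : Q := ev t a (FreeGroup.mk (wd c c'))

theorem gQ_pair (h1 : ev t a (FreeGroup.mk r1) = 1) (h2 : ev t a (FreeGroup.mk r2) = 1)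
    {σ : Cell} (hσ : σ ∉ Kc) {c c' : Blk} (hc : inc σ c) (hc' : inc σ c') :
    gQ t a c c' = (gQ t a (bl0 σ) c)⁻¹ * gQ t a (bl0 σ) c' := by
  have hm := mem_bls hc
  have hm' := mem_bls hc'
  unfold gQ
  by_cases he : σ = (1, 5, 3)
  · subst he
    have h3 := chk_exc
    rw [List.all_eq_true] at h3
    have h4 := h3 c hm
    rw [List.all_eq_true] at h4
    have h5 := of_decide_eq_true (h4 c' hm')
    have h6 : ev t a (FreeGroup.mk (FreeGroup.invRev (wd (bl0 (1, 5, 3)) c) ++
        wd (bl0 (1, 5, 3)) c' ++ FreeGroup.invRev (wd c c'))) = 1 := by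
      rw [← FreeGroup.reduce.self]
      simp only [List.mem_cons, List.not_mem_nil, or_false] at h5
      rcases h5 with h5 | h5 | h5
      · rw [h5, ← FreeGroup.one_eq_mk, map_one]
      · rw [h5, h1]
      · rw [h5, h2]
    rw [← FreeGroup.mul_mk, ← FreeGroup.mul_mk, ← FreeGroup.inv_mk, ← FreeGroup.inv_mk, map_mul,
      map_mul, map_inv, map_inv] at h6
    exact (mul_inv_eq_one.1 h6).symm
  · obtain ⟨s, x, z⟩ := σ
    have h3 := chk_all s x z (by
      rw [List.mem_cons, not_or]
      exact ⟨he, hσ⟩)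
    unfold chk at h3
    rw [List.all_eq_true] at h3
    have h4 := h3 c hm
    rw [List.all_eq_true] at h4
    have h5 := of_decide_eq_true (h4 c' hm')
    rw [← ev_red t a h5, ← FreeGroup.mul_mk, ← FreeGroup.inv_mk, map_mul, map_inv]

theorem gQ_flat (h1 : ev t a (FreeGroup.mk r1) = 1) (h2 : ev t a (FreeGroup.mk r2) = 1) :
    Flat3 (gQ t a) := by
  intro σ hσ c c' c'' hc hc' hc''
  rw [gQ_pair t a h1 h2 hσ hc hc', gQ_pair t a h1 h2 hσ hc' hc'', gQ_pair t a h1 h2 hσ hc hc'']
  group

theorem gQ_prod (c : Fin 27 → Blk) : prodL (gQ t a) c = ev t a (FreeGroup.mk (wdL c)) := by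
  have h : ∀ L : List Wd, (L.map fun w => ev t a (FreeGroup.mk w)).prod =
      ev t a (FreeGroup.mk L.flatten) := by
    intro L
    induction L with
    | nil =>
      rw [List.map_nil, List.prod_nil, List.flatten_nil, ← FreeGroup.one_eq_mk, map_one]
    | cons w L ih =>
      rw [List.map_cons, List.prod_cons, List.flatten_cons, ← FreeGroup.mul_mk, map_mul, ih]
  unfold prodL wdL
  rw [← h, List.map_ofFn]
  rfl

theorem ev_lab4 {c c' : Blk} (h : FreeGroup.reduce (wd c c') =
      if c.1 = 3 ∧ c'.1 = 0 then [(true, false)] else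
      if c.1 = 0 ∧ c'.1 = 3 then [(true, true)] else []) :
    gQ t a c c' = lab4 t⁻¹ c.1 c'.1 := by
  unfold gQ lab4
  rw [← FreeGroup.reduce.self, h]
  split_ifs
  · have : (FreeGroup.mk [(true, false)] : FreeGroup Bool) = (FreeGroup.of true)⁻¹ := rfl
    rw [this, map_inv, ev, FreeGroup.lift_apply_of, if_pos rfl]
  · have : (FreeGroup.mk [(true, true)] : FreeGroup Bool) = FreeGroup.of true := rfl
    rw [this, ev, FreeGroup.lift_apply_of, if_pos rfl, inv_inv]
  · rw [← FreeGroup.one_eq_mk, map_one]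

theorem gQ_outer {σ : Cell} (hσ : σ ∉ Kc) {c c' : Blk} (hc : inc σ c) (hc' : inc σ c')
    (ho : outerB c) (ho' : outerB c') : gQ t a c c' = lab4 t⁻¹ c.1 c'.1 := by
  have hm := mem_bls hc
  have hm' := mem_bls hc'
  obtain ⟨s, x, z⟩ := σ
  have h3 := chkO_all s x z hσ
  unfold chkO at h3
  rw [List.all_eq_true] at h3
  have h4 := h3 c hm
  rw [List.all_eq_true] at h4
  have h5 := h4 c' hm'
  unfold outerB at ho ho'
  rw [decide_eq_true ho, decide_eq_true ho', Bool.not_true, Bool.false_or, Bool.false_or] at h5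
  exact ev_lab4 t a (of_decide_eq_true h5)

end eval

theorem labels_Q : ∃ g : Blk → Blk → Q, Flat3 g ∧ prodL g seqK = 1 ∧ ¬ Triv3 g ∧
    ∃ t : Q, ∀ σ : Cell, σ ∉ Kc → ∀ c c' : Blk, inc σ c → inc σ c' → outerB c → outerB c' →
      g c c' = lab4 t c.1 c'.1 := by
  obtain ⟨t, a, ht, hK, h1, h2⟩ := exists_ta
  have e : ∀ b s (w : Wd), ev t a (FreeGroup.mk ((b, s) :: w)) =
      (if s then (if b then t else a) else (if b then t else a)⁻¹) * ev t a (FreeGroup.mk w) := by
    intro b s w
    have h3 : (FreeGroup.mk ((b, s) :: w) : FreeGroup Bool) =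
        FreeGroup.mk [(b, s)] * FreeGroup.mk w := by rw [FreeGroup.mul_mk]; rfl
    rw [h3, map_mul]
    congr 1
    cases s
    · have : (FreeGroup.mk [(b, false)] : FreeGroup Bool) = (FreeGroup.of b)⁻¹ := rfl
      rw [this, map_inv, ev, FreeGroup.lift_apply_of]
      rfl
    · have : (FreeGroup.mk [(b, true)] : FreeGroup Bool) = FreeGroup.of b := rfl
      rw [this, ev, FreeGroup.lift_apply_of]
      rfl
  have e0 : ev t a (FreeGroup.mk []) = 1 := by rw [← FreeGroup.one_eq_mk, map_one]
  have hK' : ev t a (FreeGroup.mk rK) = 1 := by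
    rw [← hK]
    simp only [rK, e, e0, if_true, if_false, Bool.false_eq_true, mul_one]
  have h1' : ev t a (FreeGroup.mk r1) = 1 := by
    rw [← h1]
    simp only [r1, e, e0, if_true, if_false, Bool.false_eq_true, mul_one]
  have h2' : ev t a (FreeGroup.mk r2) = 1 := by
    rw [← h2]
    simp only [r2, e, e0, if_true, if_false, Bool.false_eq_true, mul_one]
  refine ⟨gQ t a, gQ_flat t a h1' h2', ?_, ?_, t⁻¹, fun σ hσ c c' hc hc' ho ho' =>
    gQ_outer t a hσ hc hc' ho ho'⟩
  · rw [gQ_prod, ← FreeGroup.reduce.self, wd_seqK]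
    exact hK'
  · rintro ⟨h, hh⟩
    have g1 : ∀ (j : ZMod 4), gQ t a (j, 0, 0) (j + 1, 0, 0) = (h (j, 0, 0))⁻¹ * h (j + 1, 0, 0) := by
      intro j
      refine hh (2 * ((j + 1).val : ZMod 8), 0, 0) ?_ _ _ ?_ ?_
      · revert j; decide
      · revert j; decide
      · revert j; decide
    have g2 : ∀ (j : ZMod 4), gQ t a (j, 0, 0) (j + 1, 0, 0) = lab4 t⁻¹ j (j + 1) := by
      intro j
      refine gQ_outer t a (σ := (2 * ((j + 1).val : ZMod 8), 0, 0)) ?_ ?_ ?_ (Or.inl rfl) (Or.inl rfl)
      · revert j; decide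
      · revert j; decide
      · revert j; decide
    have g3 : ∀ (j : ZMod 4), h (j + 1, 0, 0) = h (j, 0, 0) * lab4 t⁻¹ j (j + 1) := fun j => by
      rw [← g2, g1, mul_inv_cancel_left]
    have e1 := g3 0
    have e2 := g3 1
    have e3 := g3 2
    have e4 := g3 3
    have l1 : lab4 t⁻¹ (0 : ZMod 4) (0 + 1) = 1 := by
      unfold lab4; rw [if_neg (by decide), if_neg (by decide)]
    have l2 : lab4 t⁻¹ (1 : ZMod 4) (1 + 1) = 1 := by
      unfold lab4; rw [if_neg (by decide), if_neg (by decide)]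
    have l3 : lab4 t⁻¹ (2 : ZMod 4) (2 + 1) = 1 := by
      unfold lab4; rw [if_neg (by decide), if_neg (by decide)]
    have l4 : lab4 t⁻¹ (3 : ZMod 4) (3 + 1) = t⁻¹ := by
      unfold lab4; rw [if_pos (by decide)]
    rw [l1, mul_one] at e1
    rw [l2, mul_one] at e2
    rw [l3, mul_one] at e3
    rw [l4] at e4
    have z1 : (0 : ZMod 4) + 1 = 1 := by decide
    have z2 : (1 : ZMod 4) + 1 = 2 := by decide
    have z3 : (2 : ZMod 4) + 1 = 3 := by decide
    have z4 : (3 : ZMod 4) + 1 = 0 := by decide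
    rw [z1] at e1
    rw [z2] at e2
    rw [z3] at e3
    rw [z4, e3, e2, e1] at e4
    have h5 : t⁻¹ = 1 := by
      have h6 : h (0, 0, 0) * t⁻¹ = h (0, 0, 0) * 1 := by rw [← e4, mul_one]
      exact mul_left_cancel h6
    exact ht (inv_eq_one.1 h5)

end Pool.Agent.Helper26.Maz
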