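import Mathlib
import Pool.Agent.Helper26.Maz.Defs

/-!
# The local form of the tube around the lattice polygon
-/

set_option autoImplicit false

namespace Pool.Agent.Helper26.Maz

/-- The data at a vertex of the polygon: the outgoing step `s`, the incoming step `s'`, the vector `w`
and the slopes `c`, `c'`. -/
structure Nd where
  s1 : ℝ
  s2 : ℝ
  s3 : ℝ
  r1 : ℝ
  r2 : ℝ
  r3 : ℝ
  w1 : ℝ
  w2 : ℝ
  c : ℝ
  d : ℝ
  hs : (s1 - s3) * w2 - (s2 - s3) * w1 = 1
  hr : (r1 - r3) * w2 - (r2 - r3) * w1 = 1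
  hc : |c| ≤ 2
  hd : |d| ≤ 2

namespace Nd

variable (N : Nd)

/-- the tube near the vertex -/
noncomputable def F (u a b : ℝ) : ℝ × ℝ × ℝ :=
  (max u 0 * N.s1 - max (-u) 0 * N.r1 +
      (a + b * (N.w1 + max u 0 * (N.c * (N.s1 - N.s3)) - max (-u) 0 * (N.d * (N.r1 - N.r3)))),
    max u 0 * N.s2 - max (-u) 0 * N.r2 +
      (a + b * (N.w2 + max u 0 * (N.c * (N.s2 - N.s3)) - max (-u) 0 * (N.d * (N.r2 - N.r3)))),
    max u 0 * N.s3 - max (-u) 0 * N.r3 + a)

/-- the coordinate along the curve before scaling -/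
def la (P : ℝ × ℝ × ℝ) : ℝ := (P.1 - P.2.2) * N.w2 - (P.2.1 - P.2.2) * N.w1

/-- the coordinate `b` -/
noncomputable def gb (P : ℝ × ℝ × ℝ) : ℝ :=
  ((N.s1 - N.s3) * (P.2.1 - P.2.2) - (N.s2 - N.s3) * (P.1 - P.2.2)) +
    max (-N.la P) 0 * ((N.s1 - N.s3) * (N.r2 - N.r3) - (N.s2 - N.s3) * (N.r1 - N.r3))

/-- the coordinate `u` -/
noncomputable def gu (P : ℝ × ℝ × ℝ) : ℝ :=
  max (N.la P) 0 / (1 + N.gb P * N.c) - max (-N.la P) 0 / (1 + N.gb P * N.d)

/-- the coordinate `a` -/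
noncomputable def ga (P : ℝ × ℝ × ℝ) : ℝ :=
  P.2.2 - max (N.gu P) 0 * N.s3 + max (-N.gu P) 0 * N.r3

theorem pos_of {b c : ℝ} (hb : |b| ≤ 1 / 8) (hc : |c| ≤ 2) : 0 < 1 + b * c := by
  have h1 : |b * c| ≤ 1 / 8 * 2 := by
    rw [abs_mul]
    exact mul_le_mul hb hc (abs_nonneg _) (by norm_num)
  have h2 := neg_abs_le (b * c)
  linarith

theorem la_F (u a b : ℝ) : N.la (N.F u a b) =
    max u 0 * (1 + b * N.c) - max (-u) 0 * (1 + b * N.d) := by
  have hs := N.hs
  have hr := N.hr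
  unfold la F
  simp only
  linear_combination max u 0 * (1 + b * N.c) * hs - max (-u) 0 * (1 + b * N.d) * hr

theorem gb_F {u a b : ℝ} (hb : |b| ≤ 1 / 8) : N.gb (N.F u a b) = b := by
  have h1 := N.la_F u a b
  have hs := N.hs
  have hr := N.hr
  have hc := pos_of hb N.hc
  have hd := pos_of hb N.hd
  unfold gb
  rw [h1]
  rcases le_total 0 u with hu | hu
  · rw [max_eq_left hu, max_eq_right (by linarith : -u ≤ 0)]
    rw [max_eq_right (by nlinarith : -(u * (1 + b * N.c) - 0 * (1 + b * N.d)) ≤ 0)]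
    unfold F
    rw [max_eq_left hu, max_eq_right (by linarith : -u ≤ 0)]
    simp only
    linear_combination b * hs
  · rw [max_eq_right hu, max_eq_left (by linarith : 0 ≤ -u)]
    rw [max_eq_left (by nlinarith : 0 ≤ -(0 * (1 + b * N.c) - -u * (1 + b * N.d)))]
    unfold F
    rw [max_eq_right hu, max_eq_left (by linarith : 0 ≤ -u)]
    simp only
    linear_combination b * hs

theorem gu_F {u a b : ℝ} (hb : |b| ≤ 1 / 8) : N.gu (N.F u a b) = u := by
  have h1 := N.la_F u a b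
  have hc := pos_of hb N.hc
  have hd := pos_of hb N.hd
  unfold gu
  rw [gb_F N hb, h1]
  rcases le_total 0 u with hu | hu
  · rw [max_eq_left hu, max_eq_right (by linarith : -u ≤ 0)]
    rw [max_eq_right (by nlinarith : -(u * (1 + b * N.c) - 0 * (1 + b * N.d)) ≤ 0),
      max_eq_left (by nlinarith : 0 ≤ (u * (1 + b * N.c) - 0 * (1 + b * N.d)))]
    field_simp
    ring
  · rw [max_eq_right hu, max_eq_left (by linarith : 0 ≤ -u)]
    rw [max_eq_left (by nlinarith : 0 ≤ -(0 * (1 + b * N.c) - -u * (1 + b * N.d))),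
      max_eq_right (by nlinarith : (0 * (1 + b * N.c) - -u * (1 + b * N.d)) ≤ 0)]
    field_simp
    ring

theorem ga_F {u a b : ℝ} (hb : |b| ≤ 1 / 8) : N.ga (N.F u a b) = a := by
  unfold ga
  rw [gu_F N hb]
  unfold F
  simp only
  ring

theorem F_inj {u a b u' a' b' : ℝ} (hb : |b| ≤ 1 / 8) (hb' : |b'| ≤ 1 / 8)
    (h : N.F u a b = N.F u' a' b') : u = u' ∧ a = a' ∧ b = b' := by
  refine ⟨?_, ?_, ?_⟩
  · rw [← gu_F N hb (u := u) (a := a), ← gu_F N hb' (u := u') (a := a'), h]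
  · rw [← ga_F N hb (u := u) (a := a), ← ga_F N hb' (u := u') (a := a'), h]
  · rw [← gb_F N hb (u := u) (a := a), ← gb_F N hb' (u := u') (a := a'), h]

theorem F_g {P : ℝ × ℝ × ℝ} (hb : |N.gb P| ≤ 1 / 8) : N.F (N.gu P) (N.ga P) (N.gb P) = P := by
  have hc := pos_of hb N.hc
  have hd := pos_of hb N.hd
  have hs := N.hs
  have hr := N.hr
  obtain ⟨b, hbb⟩ : ∃ b, N.gb P = b := ⟨_, rfl⟩
  obtain ⟨l, hl⟩ : ∃ l, N.la P = l := ⟨_, rfl⟩
  have hb1 : b = ((N.s1 - N.s3) * (P.2.1 - P.2.2) - (N.s2 - N.s3) * (P.1 - P.2.2)) +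
    max (-l) 0 * ((N.s1 - N.s3) * (N.r2 - N.r3) - (N.s2 - N.s3) * (N.r1 - N.r3)) := by
    rw [← hbb, gb, hl]
  have hl1 : l = (P.1 - P.2.2) * N.w2 - (P.2.1 - P.2.2) * N.w1 := by rw [← hl, la]
  have hu1 : N.gu P = max l 0 / (1 + b * N.c) - max (-l) 0 / (1 + b * N.d) := by
    rw [gu, hbb, hl]
  have ha1 : N.ga P = P.2.2 - max (N.gu P) 0 * N.s3 + max (-N.gu P) 0 * N.r3 := rfl
  rw [hbb] at hc hd
  rw [hbb]
  rcases le_total 0 l with h0 | h0
  · rw [max_eq_left h0, max_eq_right (by linarith : -l ≤ 0), zero_div, sub_zero] at hu1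
    rw [max_eq_right (by linarith : -l ≤ 0), zero_mul, add_zero] at hb1
    have hu0 : 0 ≤ N.gu P := by rw [hu1]; positivity
    have hul : N.gu P * (1 + b * N.c) = l := by rw [hu1]; field_simp
    rw [max_eq_left hu0, max_eq_right (by linarith : -N.gu P ≤ 0)] at ha1
    unfold F
    rw [max_eq_left hu0, max_eq_right (by linarith : -N.gu P ≤ 0), ha1]
    refine Prod.ext ?_ (Prod.ext ?_ ?_)
    · simp only
      linear_combination (N.s1 - N.s3) * (hul + hl1) + N.w1 * hb1 + (P.1 - P.2.2) * hs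
    · simp only
      linear_combination (N.s2 - N.s3) * (hul + hl1) + N.w2 * hb1 + (P.2.1 - P.2.2) * hs
    · simp only
      ring
  · rw [max_eq_right h0, max_eq_left (by linarith : 0 ≤ -l), zero_div, zero_sub] at hu1
    rw [max_eq_left (by linarith : 0 ≤ -l)] at hb1
    have hu0 : N.gu P ≤ 0 := by
      rw [hu1, neg_nonpos]
      exact div_nonneg (by linarith) hd.le
    have hul : N.gu P * (1 + b * N.d) = l := by rw [hu1]; field_simp
    rw [max_eq_right hu0, max_eq_left (by linarith : 0 ≤ -N.gu P)] at ha1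
    unfold F
    rw [max_eq_right hu0, max_eq_left (by linarith : 0 ≤ -N.gu P), ha1]
    have hb2 : b = (N.r1 - N.r3) * (P.2.1 - P.2.2) - (N.r2 - N.r3) * (P.1 - P.2.2) := by
      rw [hb1, hl1]
      linear_combination ((N.r1 - N.r3) * (P.2.1 - P.2.2) - (N.r2 - N.r3) * (P.1 - P.2.2)) * hs -
        ((N.s1 - N.s3) * (P.2.1 - P.2.2) - (N.s2 - N.s3) * (P.1 - P.2.2)) * hr
    refine Prod.ext ?_ (Prod.ext ?_ ?_)
    · simp only
      linear_combination (N.r1 - N.r3) * (hul + hl1) + N.w1 * hb2 + (P.1 - P.2.2) * hr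
    · simp only
      linear_combination (N.r2 - N.r3) * (hul + hl1) + N.w2 * hb2 + (P.2.1 - P.2.2) * hr
    · simp only
      ring

theorem continuous_la : Continuous N.la := by
  unfold la
  fun_prop

theorem continuous_gb : Continuous N.gb := by
  have := N.continuous_la
  unfold gb
  fun_prop

theorem continuousAt_gu {P : ℝ × ℝ × ℝ} (hb : |N.gb P| ≤ 1 / 8) : ContinuousAt N.gu P := by
  have h1 := N.continuous_la
  have h2 := N.continuous_gb
  unfold gu
  refine ContinuousAt.sub (ContinuousAt.div ?_ ?_ ?_) (ContinuousAt.div ?_ ?_ ?_)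
  · exact (h1.max continuous_const).continuousAt
  · fun_prop
  · exact (pos_of hb N.hc).ne'
  · exact (h1.neg.max continuous_const).continuousAt
  · fun_prop
  · exact (pos_of hb N.hd).ne'

theorem continuousAt_ga {P : ℝ × ℝ × ℝ} (hb : |N.gb P| ≤ 1 / 8) : ContinuousAt N.ga P := by
  have h1 := N.continuousAt_gu hb
  unfold ga
  fun_prop

end Nd

end Pool.Agent.Helper26.Maz
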