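import Mathlib
import Pool.Agent.Helper26.Maz.TubeLoc
import Pool.Agent.Helper98.Maz.Deg
import Pool.Agent.Helper35.Maz.Sph

/-!
# A tubular neighbourhood of Mazur's curve
-/

set_option autoImplicit false

namespace Pool.Agent.Helper26.Maz

open Pool.Agent.Helper35.MazSph

/-- the transversal vectors at the vertices -/
def wv : Fin 26 → ℤ × ℤ :=
  ![(-1, 1), (-1, 1), (-1, 0), (-1, 0), (-1, -1), (0, -1), (0, -1), (0, -1), (1, 0), (1, -1), (0, -1),
    (-2, -1), (-1, 0), (0, 1), (0, 1), (0, 1), (1, 1), (1, 0), (1, 0), (2, 1), (1, 1), (1, 1), (1, 1),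
    (1, 2), (0, 1), (0, 1)]

/-- the slopes of the transversal vectors on the edges -/
def cv : Fin 26 → ℤ :=
  ![0, -1, 0, -1, -1, 0, 0, -1, 1, 1, 2, 1, 1, 0, 0, 1, 1, 0, -1, -1, 0, 0, -1, -1, 0, -1]

/-- the vertices -/
def nd (k : Fin 26) : ℤ × ℤ × ℤ :=
  (psum (fun i => (steps i).1) k, psum (fun i => (steps i).2.1) k, 1 + psum (fun i => (steps i).2.2) k)

def e1 (k : Fin 26) : ℤ := cv k * ((steps k).1 - (steps k).2.2)

def e2 (k : Fin 26) : ℤ := cv k * ((steps k).2.1 - (steps k).2.2)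

theorem facts : ∀ k : Fin 26,
    ((steps k).1 - (steps k).2.2) * (wv k).2 - ((steps k).2.1 - (steps k).2.2) * (wv k).1 = 1 ∧
    ((steps (k - 1)).1 - (steps (k - 1)).2.2) * (wv k).2 -
      ((steps (k - 1)).2.1 - (steps (k - 1)).2.2) * (wv k).1 = 1 ∧
    |cv k| ≤ 2 ∧ |cv (k - 1)| ≤ 2 := by
  decide +kernel

theorem facts2 : ∀ k : Fin 26,
    psum e1 k = (wv k).1 + 1 ∧ psum e2 k = (wv k).2 - 1 ∧
    (wv k).1 = (wv (k - 1)).1 + e1 (k - 1) ∧ (wv k).2 = (wv (k - 1)).2 + e2 (k - 1) ∧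
    ((nd (k - 1)).1 + (steps (k - 1)).1 = (nd k).1 ∨
      (nd (k - 1)).1 + (steps (k - 1)).1 = (nd k).1 + 4) ∧
    (nd (k - 1)).2.1 + (steps (k - 1)).2.1 = (nd k).2.1 ∧
    (nd (k - 1)).2.2 + (steps (k - 1)).2.2 = (nd k).2.2 ∧
    ((k - 1).val + 1 = k.val ∨ (k - 1).val + 1 = k.val + 26) := by
  decide +kernel

theorem facts3 : (∑ i, e1 i = 0) ∧ (∑ i, e2 i = 0) := by
  decide +kernel

/-- the local data at a vertex -/
noncomputable def ndN (k : Fin 26) : Nd where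
  s1 := (steps k).1
  s2 := (steps k).2.1
  s3 := (steps k).2.2
  r1 := (steps (k - 1)).1
  r2 := (steps (k - 1)).2.1
  r3 := (steps (k - 1)).2.2
  w1 := (wv k).1
  w2 := (wv k).2
  c := cv k
  d := cv (k - 1)
  hs := by exact_mod_cast (facts k).1
  hr := by exact_mod_cast (facts k).2.1
  hc := by exact_mod_cast (facts k).2.2.1
  hd := by exact_mod_cast (facts k).2.2.2

/-- a real polygon on the circle -/
noncomputable def rpoly (r : Fin 26 → ℤ) (x0 : ℝ) : C26 → ℝ :=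
  AddCircle.liftIco 26 0 fun t => x0 + ∑ i : Fin 26, max 0 (min 1 (t - i)) * (r i : ℝ)

theorem rpoly_closed (r : Fin 26 → ℤ) (x0 : ℝ) (h : ∑ i, r i = 0) :
    x0 + ∑ i : Fin 26, max 0 (min 1 ((0 : ℝ) - i)) * (r i : ℝ) =
      x0 + ∑ i : Fin 26, max 0 (min 1 ((26 : ℝ) - i)) * (r i : ℝ) := by
  simp only [Deg.ramp_zero, Deg.ramp_last, zero_mul, one_mul, Finset.sum_const_zero, add_zero]
  rw [← Int.cast_sum, h]
  simp

theorem rpoly_continuous (r : Fin 26 → ℤ) (x0 : ℝ) (h : ∑ i, r i = 0) : Continuous (rpoly r x0) := by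
  unfold rpoly
  refine AddCircle.liftIco_continuous ?_ ?_
  · simp only [zero_add]
    exact rpoly_closed r x0 h
  · exact (continuous_const.add (Deg.continuous_sum r)).continuousOn

theorem liftIco_closed {B : Type*} (f : ℝ → B) (h : f 0 = f 26) {t : ℝ} (h0 : 0 ≤ t) (h1 : t ≤ 26) :
    AddCircle.liftIco 26 0 f ((t : ℝ) : C26) = f t := by
  rcases h1.lt_or_eq with h1 | h1
  · exact AddCircle.liftIco_zero_coe_apply ⟨h0, h1⟩
  · subst h1
    have h2 : ((26 : ℝ) : C26) = ((0 : ℝ) : C26) := by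
      rw [AddCircle.coe_period, AddCircle.coe_zero]
    rw [h2, AddCircle.liftIco_zero_coe_apply ⟨le_refl _, by norm_num⟩, h]

theorem sum_coef' (c : Fin 26 → ℤ) (k : Fin 26) {θ : ℝ} (h0 : 0 ≤ θ) (h1 : θ ≤ 1) :
    ∑ i : Fin 26, max 0 (min 1 ((k.val : ℝ) + θ - i)) * (c i : ℝ) = psum c k + θ * c k := by
  rcases h1.lt_or_eq with h1 | h1
  · rw [sum_coef c _ k (by linarith) (by linarith)]
    ring
  · subst h1
    have h2 : ∀ i : Fin 26, max (0 : ℝ) (min 1 ((k.val : ℝ) + 1 - i)) =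
        (if i < k then 1 else 0) + (if i = k then 1 else 0) := by
      intro i
      rcases lt_trichotomy i k with h | h | h
      · have h2 : ((i : ℕ) : ℝ) + 1 ≤ (k : ℕ) := by
          have : (i : ℕ) + 1 ≤ (k : ℕ) := h
          exact_mod_cast this
        rw [if_pos h, if_neg h.ne, min_eq_left (by linarith)]
        simp
      · subst h
        rw [if_neg (lt_irrefl _), if_pos rfl, min_eq_left (by linarith), max_eq_right (by linarith)]
        ring
      · have h2 : ((k : ℕ) : ℝ) + 1 ≤ (i : ℕ) := by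
          have : (k : ℕ) + 1 ≤ (i : ℕ) := h
          exact_mod_cast this
        rw [if_neg (not_lt.mpr h.le), if_neg h.ne', min_eq_right (by linarith),
          max_eq_left (by linarith)]
        simp
    have : ∀ i : Fin 26, max (0 : ℝ) (min 1 ((k.val : ℝ) + 1 - i)) * (c i : ℝ) =
        (if i < k then (c i : ℝ) else 0) + (if i = k then (c i : ℝ) else 0) := by
      intro i
      rw [h2]
      split_ifs <;> ring
    rw [Finset.sum_congr rfl fun i _ => this i, Finset.sum_add_distrib, Finset.sum_ite_eq']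
    simp only [Finset.mem_univ, if_true, one_mul]
    congr 1
    unfold psum
    push_cast
    rfl

theorem rpoly_apply (r : Fin 26 → ℤ) (x0 : ℝ) (h : ∑ i, r i = 0) (k : Fin 26) {θ : ℝ} (h0 : 0 ≤ θ)
    (h1 : θ ≤ 1) : rpoly r x0 (((k.val : ℝ) + θ : ℝ) : C26) = x0 + (psum r k + θ * r k) := by
  have h2 : ((k.val : ℕ) : ℝ) + 1 ≤ 26 := by
    have := k.2
    exact_mod_cast this
  unfold rpoly
  rw [liftIco_closed _ (rpoly_closed r x0 h) (by positivity) (by linarith), sum_coef' r k h0 h1]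

theorem knot_apply (v : ℝ) (k : Fin 26) {θ : ℝ} (h0 : 0 ≤ θ) (h1 : θ ≤ 1) :
    knot v (((k.val : ℝ) + θ : ℝ) : C26) = (((v + ((nd k).1 + θ * (steps k).1) : ℝ) : C4),
      v + ((nd k).2.1 + θ * (steps k).2.1), v + ((nd k).2.2 + θ * (steps k).2.2)) := by
  have h2 : ((k.val : ℕ) : ℝ) + 1 ≤ 26 := by
    have := k.2
    exact_mod_cast this
  unfold knot polygon
  rw [liftIco_closed _ _ (by positivity) (by linarith)]
  · simp only
    rw [sum_coef' (fun i => (steps i).1) k h0 h1, sum_coef' (fun i => (steps i).2.1) k h0 h1,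
      sum_coef' (fun i => (steps i).2.2) k h0 h1]
    unfold nd
    push_cast
    refine Prod.ext rfl (Prod.ext rfl ?_)
    simp only
    ring
  · simp only [Deg.ramp_zero, Deg.ramp_last, zero_mul, one_mul, Finset.sum_const_zero, add_zero]
    have hs1 : (∑ i : Fin 26, (steps i).1) = 4 := by decide +kernel
    have hs2 : (∑ i : Fin 26, (steps i).2.1) = 0 := by decide +kernel
    have hs3 : (∑ i : Fin 26, (steps i).2.2) = 0 := by decide +kernel
    rw [← Int.cast_sum, ← Int.cast_sum, ← Int.cast_sum, hs1, hs2, hs3]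
    refine Prod.ext ?_ (Prod.ext ?_ ?_)
    · push_cast
      rw [AddCircle.coe_add, AddCircle.coe_period, add_zero]
    · simp
    · simp

/-- every point of the circle lies on an edge -/
theorem exists_edge (t : C26) : ∃ (k : Fin 26) (θ : ℝ), 0 ≤ θ ∧ θ < 1 ∧
    t = (((k.val : ℝ) + θ : ℝ) : C26) := by
  obtain ⟨x, hx, rfl⟩ := AddCircle.eq_coe_Ico t
  have hx' : x ∈ Set.Ico (0 : ℝ) (0 + 26) := by simpa using hx
  have hk0 : ((⌊x⌋₊ : ℕ) : ℝ) ≤ x := Nat.floor_le hx.1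
  have hk1 : x < ((⌊x⌋₊ : ℕ) : ℝ) + 1 := Nat.lt_floor_add_one x
  have hk : ⌊x⌋₊ < 26 := by
    rw [Nat.floor_lt hx.1]
    exact hx.2
  refine ⟨⟨⌊x⌋₊, hk⟩, x - ⌊x⌋₊, by linarith, by linarith, ?_⟩
  congr 1
  ring

/-- the projection from `ℝ³` -/
noncomputable def qq3 (P : ℝ × ℝ × ℝ) : C4 × ℝ × ℝ := ((P.1 : C4), P.2.1, P.2.2)

theorem isOpenMap_qq3 : IsOpenMap qq3 := by
  have h : IsOpenMap (Prod.map (fun x : ℝ => (x : C4)) (id : ℝ × ℝ → ℝ × ℝ)) :=
    QuotientAddGroup.isOpenMap_coe.prodMap IsOpenMap.id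
  exact h

/-- the tube in `S¹ × ℝ²` -/
noncomputable def Fq (t : C26) (a b : ℝ) : C4 × ℝ × ℝ :=
  knot 0 t + (((a + b * rpoly e1 (-1) t : ℝ) : C4), a + b * rpoly e2 1 t, a)

theorem Fq_edge (k : Fin 26) {θ : ℝ} (h0 : 0 ≤ θ) (h1 : θ ≤ 1) (a b : ℝ) :
    Fq (((k.val : ℝ) + θ : ℝ) : C26) a b = qq3 (((nd k).1 : ℝ) + (θ * (steps k).1 +
      (a + b * ((wv k).1 + θ * e1 k))),
      ((nd k).2.1 : ℝ) + (θ * (steps k).2.1 + (a + b * ((wv k).2 + θ * e2 k))),
      ((nd k).2.2 : ℝ) + (θ * (steps k).2.2 + a)) := by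
  have f1 := (facts2 k).1
  have f2 := (facts2 k).2.1
  unfold Fq qq3
  rw [knot_apply 0 k h0 h1, rpoly_apply e1 (-1) facts3.1 k h0 h1, rpoly_apply e2 1 facts3.2 k h0 h1,
    f1, f2]
  refine Prod.ext ?_ (Prod.ext ?_ ?_)
  · change (((0 + ((nd k).1 + θ * (steps k).1) : ℝ) : C4)) + _ = _
    rw [← AddCircle.coe_add]
    congr 1
    push_cast
    ring
  · change (0 + ((nd k).2.1 + θ * (steps k).2.1)) + _ = _
    push_cast
    ring
  · change (0 + ((nd k).2.2 + θ * (steps k).2.2)) + _ = _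
    ring

theorem Fq_node (k : Fin 26) {u : ℝ} (h0 : -1 ≤ u) (h1 : u ≤ 1) (a b : ℝ) :
    Fq (((k.val : ℝ) + u : ℝ) : C26) a b =
      qq3 ((((nd k).1 : ℝ), ((nd k).2.1 : ℝ), ((nd k).2.2 : ℝ)) + (ndN k).F u a b) := by
  rcases le_total 0 u with hu | hu
  · rw [Fq_edge k hu h1]
    unfold Nd.F ndN
    rw [max_eq_left hu, max_eq_right (by linarith : -u ≤ 0)]
    congr 1
    refine Prod.ext ?_ (Prod.ext ?_ ?_)
    · simp only [e1, Prod.fst_add]
      push_cast
      ring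
    · simp only [e2, Prod.fst_add, Prod.snd_add]
      push_cast
      ring
    · simp only [Prod.snd_add]
      ring
  · obtain ⟨-, -, f3, f4, f5, f6, f7, f8⟩ := facts2 k
    have h2 : (((k.val : ℝ) + u : ℝ) : C26) = ((((k - 1).val : ℝ) + (1 + u) : ℝ) : C26) := by
      rcases f8 with f8 | f8
      · congr 1
        have : (((k - 1).val : ℕ) : ℝ) + 1 = (k.val : ℕ) := by exact_mod_cast f8
        linarith
      · have h3 : (((k - 1).val : ℕ) : ℝ) + 1 = (k.val : ℕ) + 26 := by exact_mod_cast f8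
        have h4 : (((k - 1).val : ℝ) + (1 + u) : ℝ) = ((k.val : ℝ) + u) + 26 := by linarith
        rw [h4, AddCircle.coe_add_period]
    rw [h2, Fq_edge (k - 1) (by linarith) (by linarith)]
    unfold Nd.F ndN
    rw [max_eq_right hu, max_eq_left (by linarith : 0 ≤ -u)]
    have g3 : ((wv k).1 : ℝ) = (wv (k - 1)).1 + e1 (k - 1) := by exact_mod_cast f3
    have g4 : ((wv k).2 : ℝ) = (wv (k - 1)).2 + e2 (k - 1) := by exact_mod_cast f4
    have g6 : ((nd (k - 1)).2.1 : ℝ) + (steps (k - 1)).2.1 = (nd k).2.1 := by exact_mod_cast f6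
    have g7 : ((nd (k - 1)).2.2 : ℝ) + (steps (k - 1)).2.2 = (nd k).2.2 := by exact_mod_cast f7
    have ge1 : (e1 (k - 1) : ℝ) = cv (k - 1) * ((steps (k - 1)).1 - (steps (k - 1)).2.2) := by
      unfold e1; push_cast; ring
    have ge2 : (e2 (k - 1) : ℝ) = cv (k - 1) * ((steps (k - 1)).2.1 - (steps (k - 1)).2.2) := by
      unfold e2; push_cast; ring
    unfold qq3
    refine Prod.ext ?_ (Prod.ext ?_ ?_)
    · rcases f5 with f5 | f5
      · have g5 : ((nd (k - 1)).1 : ℝ) + (steps (k - 1)).1 = (nd k).1 := by exact_mod_cast f5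
        simp only [Prod.fst_add]
        congr 1
        rw [← g5, g3, ← ge1]
        ring
      · have g5 : ((nd (k - 1)).1 : ℝ) + (steps (k - 1)).1 = (nd k).1 + 4 := by exact_mod_cast f5
        simp only [Prod.fst_add]
        rw [← AddCircle.coe_add_period 4 (((nd k).1 : ℝ) + _)]
        congr 1
        rw [g3, ← ge1]
        linear_combination g5
    · simp only [Prod.snd_add, Prod.fst_add]
      rw [← g6, g4, ← ge2]
      ring
    · simp only [Prod.snd_add]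
      rw [← g7]
      ring

end Pool.Agent.Helper26.Maz
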