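import Mathlib
import Pool.Agent.Helper26.Maz.Tube

/-!
# A tubular neighbourhood of Mazur's curve: it is embedded and open
-/

set_option autoImplicit false

namespace Pool.Agent.Helper26.Maz

open Pool.Agent.Helper35.MazSph

/-- bounds of the steps -/
theorem stepb : ∀ k : Fin 26, |(steps k).1| ≤ 1 ∧ |(steps k).2.1| ≤ 1 ∧ |(steps k).2.2| ≤ 1 ∧
    |(wv k).1| ≤ 2 ∧ |(wv k).2| ≤ 2 ∧ |e1 k| ≤ 2 ∧ |e2 k| ≤ 2 ∧ |(nd k).1| ≤ 4 := by
  decide +kernel

/-- the intervals `[n, n + s]` and `[m, m + r]` are disjoint -/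
def disj (n s m r : ℤ) : Prop := max n (n + s) < min m (m + r) ∨ max m (m + r) < min n (n + s)

instance (n s m r : ℤ) : Decidable (disj n s m r) := by unfold disj; infer_instance

theorem disj_dist {n s m r : ℤ} (h : disj n s m r) {u v : ℝ} (hu0 : 0 ≤ u) (hu1 : u ≤ 1)
    (hv0 : 0 ≤ v) (hv1 : v ≤ 1) : 1 ≤ |((n : ℝ) + u * s) - (m + v * r)| := by
  have key : ∀ {n s m r : ℤ} {u v : ℝ}, 0 ≤ u → u ≤ 1 → 0 ≤ v → v ≤ 1 →
      max n (n + s) < min m (m + r) → 1 ≤ ((m : ℝ) + v * r) - (n + u * s) := by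
    intro n s m r u v hu0 hu1 hv0 hv1 h
    obtain ⟨h1, h2⟩ := lt_min_iff.1 h
    obtain ⟨h3, h4⟩ := max_lt_iff.1 h1
    obtain ⟨h5, h6⟩ := max_lt_iff.1 h2
    have a1 : (n : ℝ) + 1 ≤ m := by exact_mod_cast h3
    have a2 : ((n : ℝ) + s) + 1 ≤ m := by exact_mod_cast h4
    have a3 : (n : ℝ) + 1 ≤ m + r := by exact_mod_cast h5
    have a4 : ((n : ℝ) + s) + 1 ≤ m + r := by exact_mod_cast h6
    have b1 : (n : ℝ) + u * s + 1 ≤ m := by nlinarith
    have b2 : (n : ℝ) + u * s + 1 ≤ m + r := by nlinarith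
    nlinarith
  rcases h with h | h
  · have h1 := key hu0 hu1 hv0 hv1 h
    rw [abs_sub_comm]
    exact h1.trans (le_abs_self _)
  · have h1 := key hv0 hv1 hu0 hu1 h
    exact h1.trans (le_abs_self _)

theorem disjoint_edges : ∀ k l : Fin 26, l ≠ k → l ≠ k + 1 → l + 1 ≠ k →
    disj (nd k).2.1 (steps k).2.1 (nd l).2.1 (steps l).2.1 ∨
    disj (nd k).2.2 (steps k).2.2 (nd l).2.2 (steps l).2.2 ∨
    ∀ m : Fin 7, disj (nd k).1 (steps k).1 ((nd l).1 + 4 * ((m.val : ℤ) - 3)) (steps l).1 := by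
  decide +kernel

theorem abs_ofs {a b w e θ : ℝ} (ha : |a| ≤ 1 / 16) (hb : |b| ≤ 1 / 16) (hw : |w| ≤ 2)
    (he : |e| ≤ 2) (h0 : 0 ≤ θ) (h1 : θ ≤ 1) : |a + b * (w + θ * e)| ≤ 5 / 16 := by
  have h2 : |θ * e| ≤ 2 := by
    rw [abs_mul, abs_of_nonneg h0]
    calc θ * |e| ≤ 1 * 2 := mul_le_mul h1 he (abs_nonneg _) (by norm_num)
      _ = 2 := by norm_num
  have h3 : |w + θ * e| ≤ 4 := (abs_add_le _ _).trans (by linarith)
  have h4 : |b * (w + θ * e)| ≤ 1 / 16 * 4 := by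
    rw [abs_mul]
    exact mul_le_mul hb h3 (abs_nonneg _) (by norm_num)
  exact (abs_add_le _ _).trans (by linarith)

theorem coe_eq_C4 {x y : ℝ} (h : (x : C4) = (y : C4)) : ∃ m : ℤ, x - y = 4 * m := by
  rw [← sub_eq_zero, ← AddCircle.coe_sub, AddCircle.coe_eq_zero_iff] at h
  obtain ⟨m, hm⟩ := h
  refine ⟨m, ?_⟩
  rw [← hm, zsmul_eq_mul]
  ring

/-- Two points in the star of the same vertex. -/
theorem Fq_near (k : Fin 26) {u u' a b a' b' : ℝ} (hu : |u| ≤ 1) (hu' : |u'| ≤ 1)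
    (ha : |a| ≤ 1 / 16) (hb : |b| ≤ 1 / 16) (ha' : |a'| ≤ 1 / 16) (hb' : |b'| ≤ 1 / 16)
    (h : Fq (((k.val : ℝ) + u : ℝ) : C26) a b = Fq (((k.val : ℝ) + u' : ℝ) : C26) a' b') :
    u = u' ∧ a = a' ∧ b = b' := by
  obtain ⟨hu0, hu1⟩ := abs_le.1 hu
  obtain ⟨hu0', hu1'⟩ := abs_le.1 hu'
  have hF : ∀ {u a b : ℝ}, |u| ≤ 1 → |a| ≤ 1 / 16 → |b| ≤ 1 / 16 → |((ndN k).F u a b).1| ≤ 3 / 2 := by
    intro u a b hu ha hb
    obtain ⟨s1, -, -, w1, -, e1', -, -⟩ := stepb k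
    obtain ⟨r1, -, -, -, -, e2', -, -⟩ := stepb (k - 1)
    have s1' : |((steps k).1 : ℝ)| ≤ 1 := by exact_mod_cast s1
    have r1' : |((steps (k - 1)).1 : ℝ)| ≤ 1 := by exact_mod_cast r1
    have w1' : |((wv k).1 : ℝ)| ≤ 2 := by exact_mod_cast w1
    have e1'' : |((e1 k : ℤ) : ℝ)| ≤ 2 := by exact_mod_cast e1'
    have e2'' : |((e1 (k - 1) : ℤ) : ℝ)| ≤ 2 := by exact_mod_cast e2'
    have ge1 : (e1 k : ℝ) = cv k * ((steps k).1 - (steps k).2.2) := by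
      unfold e1; push_cast; ring
    have ge2 : (e1 (k - 1) : ℝ) = cv (k - 1) * ((steps (k - 1)).1 - (steps (k - 1)).2.2) := by
      unfold e1; push_cast; ring
    unfold Nd.F ndN
    simp only
    rcases le_total 0 u with h0 | h0
    · rw [max_eq_left h0, max_eq_right (by linarith : -u ≤ 0), ← ge1, zero_mul, zero_mul, sub_zero,
        sub_zero]
      have hu2 : u ≤ 1 := (le_abs_self u).trans hu
      have h1 := abs_ofs ha hb w1' e1'' h0 hu2
      have h2 : |u * ((steps k).1 : ℝ)| ≤ 1 := by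
        rw [abs_mul]
        calc |u| * |((steps k).1 : ℝ)| ≤ 1 * 1 := mul_le_mul hu s1' (abs_nonneg _) (by norm_num)
          _ = 1 := by norm_num
      exact (abs_add_le _ _).trans (by linarith)
    · rw [max_eq_right h0, max_eq_left (by linarith : 0 ≤ -u), ← ge2, zero_mul, zero_mul, zero_sub,
        add_zero]
      have hu2 : -u ≤ 1 := (neg_le_abs u).trans hu
      have e3 : |(-((e1 (k - 1) : ℤ) : ℝ))| ≤ 2 := by rw [abs_neg]; exact e2''
      have h1 := abs_ofs ha hb w1' e3 (by linarith : 0 ≤ -u) hu2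
      have h2 : |(-(-u * ((steps (k - 1)).1 : ℝ)))| ≤ 1 := by
        rw [abs_neg, abs_mul, abs_neg]
        calc |u| * |((steps (k - 1)).1 : ℝ)| ≤ 1 * 1 :=
              mul_le_mul hu r1' (abs_nonneg _) (by norm_num)
          _ = 1 := by norm_num
      have h3 : (((wv k).1 : ℝ) - -u * ((e1 (k - 1) : ℤ) : ℝ)) =
          (((wv k).1 : ℝ) + -u * (-((e1 (k - 1) : ℤ) : ℝ))) := by ring
      rw [h3]
      exact (abs_add_le _ _).trans (by linarith)
  rw [Fq_node k hu0 hu1, Fq_node k hu0' hu1'] at h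
  unfold qq3 at h
  obtain ⟨h1, h2⟩ := Prod.ext_iff.1 h
  obtain ⟨h2, h3⟩ := Prod.ext_iff.1 h2
  simp only [Prod.fst_add, Prod.snd_add, add_right_inj] at h1 h2 h3
  obtain ⟨m, hm⟩ := coe_eq_C4 h1
  have b1 := hF hu ha hb
  have b2 := hF hu' ha' hb'
  have h4 : ((ndN k).F u a b).1 = ((ndN k).F u' a' b').1 := by
    have h5 : ((ndN k).F u a b).1 - ((ndN k).F u' a' b').1 = 4 * m := by rw [← hm]; ring
    have h6 : |(4 * m : ℝ)| < 4 := by
      rw [← h5]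
      have := abs_sub ((ndN k).F u a b).1 ((ndN k).F u' a' b').1
      linarith
    have h7 : |m| < 1 := by
      rw [abs_mul, abs_of_pos (by norm_num : (0 : ℝ) < 4)] at h6
      have : |(m : ℝ)| < 1 := by linarith
      exact_mod_cast this
    have h8 : m = 0 := Int.abs_lt_one_iff.1 h7
    rw [h8] at h5
    push_cast at h5
    linarith
  exact (ndN k).F_inj (by linarith) (by linarith) (Prod.ext h4 (Prod.ext h2 h3))

theorem val_succ_cases : ∀ k : Fin 26, (k + 1).val = k.val + 1 ∨ (k + 1).val + 26 = k.val + 1 := by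
  decide

theorem coe_succ (k : Fin 26) (θ : ℝ) : (((k.val : ℝ) + θ : ℝ) : C26) =
    ((((k + 1).val : ℝ) + (θ - 1) : ℝ) : C26) := by
  rcases val_succ_cases k with h | h
  · rw [h]
    congr 1
    push_cast
    ring
  · have h3 : (((k + 1).val : ℕ) : ℝ) + 26 = (k.val : ℕ) + 1 := by exact_mod_cast h
    have h4 : ((k.val : ℝ) + θ : ℝ) = (((k + 1).val : ℝ) + (θ - 1)) + 26 := by linarith
    rw [h4, AddCircle.coe_add_period]

/-- The tube is embedded. -/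
theorem Fq_inj {t t' : C26} {a b a' b' : ℝ} (ha : |a| ≤ 1 / 16) (hb : |b| ≤ 1 / 16)
    (ha' : |a'| ≤ 1 / 16) (hb' : |b'| ≤ 1 / 16) (h : Fq t a b = Fq t' a' b') :
    t = t' ∧ a = a' ∧ b = b' := by
  obtain ⟨k, θ, h0, h1, ht⟩ := exists_edge t
  obtain ⟨l, θ', h0', h1', ht'⟩ := exists_edge t'
  have hθ : |θ| ≤ 1 := abs_le.2 ⟨by linarith, h1.le⟩
  have hθ' : |θ'| ≤ 1 := abs_le.2 ⟨by linarith, h1'.le⟩
  have hη : |θ - 1| ≤ 1 := abs_le.2 ⟨by linarith, by linarith⟩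
  have hη' : |θ' - 1| ≤ 1 := abs_le.2 ⟨by linarith, by linarith⟩
  by_cases c1 : l = k
  · subst c1
    rw [ht, ht'] at h
    obtain ⟨e, e'⟩ := Fq_near l hθ hθ' ha hb ha' hb' h
    exact ⟨by rw [ht, ht', e], e'⟩
  by_cases c2 : l = k + 1
  · rw [coe_succ k θ, ← c2] at ht
    rw [ht, ht'] at h
    obtain ⟨e, e'⟩ := Fq_near l hη hθ' ha hb ha' hb' h
    exact ⟨by rw [ht, ht', e], e'⟩
  by_cases c3 : l + 1 = k
  · rw [coe_succ l θ', c3] at ht'
    rw [ht, ht'] at h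
    obtain ⟨e, e'⟩ := Fq_near k hθ hη' ha hb ha' hb' h
    exact ⟨by rw [ht, ht', e], e'⟩
  exfalso
  rw [ht, ht', Fq_edge k h0 h1.le, Fq_edge l h0' h1'.le] at h
  unfold qq3 at h
  obtain ⟨x1, x2⟩ := Prod.ext_iff.1 h
  obtain ⟨x2, x3⟩ := Prod.ext_iff.1 x2
  simp only at x1 x2 x3
  obtain ⟨m, hm⟩ := coe_eq_C4 x1
  obtain ⟨s1, s2, s3, w1, w2, g1, g2, n1⟩ := stepb k
  obtain ⟨s1', s2', s3', w1', w2', g1', g2', n1'⟩ := stepb l
  have o1 : |a + b * (((wv k).1 : ℝ) + θ * e1 k)| ≤ 5 / 16 :=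
    abs_ofs ha hb (by exact_mod_cast w1) (by exact_mod_cast g1) h0 h1.le
  have o2 : |a + b * (((wv k).2 : ℝ) + θ * e2 k)| ≤ 5 / 16 :=
    abs_ofs ha hb (by exact_mod_cast w2) (by exact_mod_cast g2) h0 h1.le
  have o1' : |a' + b' * (((wv l).1 : ℝ) + θ' * e1 l)| ≤ 5 / 16 :=
    abs_ofs ha' hb' (by exact_mod_cast w1') (by exact_mod_cast g1') h0' h1'.le
  have o2' : |a' + b' * (((wv l).2 : ℝ) + θ' * e2 l)| ≤ 5 / 16 :=
    abs_ofs ha' hb' (by exact_mod_cast w2') (by exact_mod_cast g2') h0' h1'.le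
  obtain ⟨A, hA⟩ : ∃ A, A = a + b * (((wv k).1 : ℝ) + θ * e1 k) := ⟨_, rfl⟩
  obtain ⟨B, hB⟩ : ∃ B, B = a + b * (((wv k).2 : ℝ) + θ * e2 k) := ⟨_, rfl⟩
  obtain ⟨A', hA'⟩ : ∃ A, A = a' + b' * (((wv l).1 : ℝ) + θ' * e1 l) := ⟨_, rfl⟩
  obtain ⟨B', hB'⟩ : ∃ B, B = a' + b' * (((wv l).2 : ℝ) + θ' * e2 l) := ⟨_, rfl⟩
  rw [← hA, ← hA'] at hm
  rw [← hB, ← hB'] at x2
  rw [← hA] at o1
  rw [← hB] at o2
  rw [← hA'] at o1'
  rw [← hB'] at o2'
  rcases disjoint_edges k l c1 c2 c3 with d | d | d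
  · have h2 := disj_dist d h0 h1.le h0' h1'.le
    have h3 : ((nd k).2.1 + θ * (steps k).2.1 : ℝ) - ((nd l).2.1 + θ' * (steps l).2.1) = B' - B := by
      linarith
    rw [h3] at h2
    have := abs_sub B' B
    linarith
  · have h2 := disj_dist d h0 h1.le h0' h1'.le
    have h3 : ((nd k).2.2 + θ * (steps k).2.2 : ℝ) - ((nd l).2.2 + θ' * (steps l).2.2) = a' - a := by
      linarith
    rw [h3] at h2
    have := abs_sub a' a
    linarith
  · have hs : |θ * ((steps k).1 : ℝ)| ≤ 1 := by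
      rw [abs_mul]
      have : |((steps k).1 : ℝ)| ≤ 1 := by exact_mod_cast s1
      calc |θ| * |((steps k).1 : ℝ)| ≤ 1 * 1 := mul_le_mul hθ this (abs_nonneg _) (by norm_num)
        _ = 1 := by norm_num
    have hs' : |θ' * ((steps l).1 : ℝ)| ≤ 1 := by
      rw [abs_mul]
      have : |((steps l).1 : ℝ)| ≤ 1 := by exact_mod_cast s1'
      calc |θ'| * |((steps l).1 : ℝ)| ≤ 1 * 1 := mul_le_mul hθ' this (abs_nonneg _) (by norm_num)
        _ = 1 := by norm_num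
    have hn : |((nd k).1 : ℝ)| ≤ 4 := by exact_mod_cast n1
    have hn' : |((nd l).1 : ℝ)| ≤ 4 := by exact_mod_cast n1'
    have h5 : |(4 * m : ℝ)| < 16 := by
      rw [← hm]
      rw [abs_le] at hs hs' hn hn' o1 o1'
      rw [abs_lt]
      constructor <;> linarith [hs.1, hs.2, hs'.1, hs'.2, hn.1, hn.2, hn'.1, hn'.2, o1.1, o1.2,
        o1'.1, o1'.2]
    have h6 : |m| < 4 := by
      rw [abs_mul, abs_of_pos (by norm_num : (0 : ℝ) < 4)] at h5
      have : |(m : ℝ)| < 4 := by linarith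
      exact_mod_cast this
    rw [abs_lt] at h6
    have h7 : (m + 3).toNat < 7 := by omega
    have d' := d ⟨(m + 3).toNat, h7⟩
    have h8 : (((m + 3).toNat : ℤ)) = m + 3 := Int.toNat_of_nonneg (by omega)
    simp only at d'
    rw [h8, add_sub_cancel_right] at d'
    have h2 := disj_dist d' h0 h1.le h0' h1'.le
    have h3 : ((nd k).1 + θ * (steps k).1 : ℝ) - (((nd l).1 + 4 * m : ℤ) + θ' * (steps l).1) = A' - A := by
      push_cast
      linarith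
    rw [h3] at h2
    have := abs_sub A' A
    linarith

/-- The tube is open. -/
theorem isOpen_tube : IsOpen {P : C4 × ℝ × ℝ | ∃ (t : C26) (a b : ℝ), a ^ 2 + b ^ 2 < (1 / 16) ^ 2 ∧
    Fq t a b = P} := by
  rw [isOpen_iff_mem_nhds]
  rintro P₀ ⟨t₀, a₀, b₀, h₀, rfl⟩
  obtain ⟨k, θ, h0, h1, ht⟩ := exists_edge t₀
  have bnd : ∀ {a b : ℝ}, a ^ 2 + b ^ 2 < (1 / 16) ^ 2 → |b| ≤ 1 / 8 := by
    intro a b h
    have h2 : b ^ 2 ≤ (1 / 8) ^ 2 := by nlinarith [sq_nonneg a]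
    exact abs_le_of_sq_le_sq h2 (by norm_num)
  obtain ⟨n, hn⟩ : ∃ n : ℝ × ℝ × ℝ, n = (((nd k).1 : ℝ), ((nd k).2.1 : ℝ), ((nd k).2.2 : ℝ)) :=
    ⟨_, rfl⟩
  have hP : Fq t₀ a₀ b₀ = qq3 (n + (ndN k).F θ a₀ b₀) := by
    rw [ht, Fq_node k (by linarith) h1.le, hn]
  have hb₀ := bnd h₀
  have g1 : (ndN k).gb ((n + (ndN k).F θ a₀ b₀) - n) = b₀ := by
    rw [add_sub_cancel_left, (ndN k).gb_F hb₀]
  have g2 : (ndN k).gu ((n + (ndN k).F θ a₀ b₀) - n) = θ := by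
    rw [add_sub_cancel_left, (ndN k).gu_F hb₀]
  have g3 : (ndN k).ga ((n + (ndN k).F θ a₀ b₀) - n) = a₀ := by
    rw [add_sub_cancel_left, (ndN k).ga_F hb₀]
  have c0 : ContinuousAt (fun P : ℝ × ℝ × ℝ => P - n) (n + (ndN k).F θ a₀ b₀) := by fun_prop
  have hb₁ : |(ndN k).gb ((n + (ndN k).F θ a₀ b₀) - n)| ≤ 1 / 8 := by rw [g1]; exact hb₀
  have c1 : ContinuousAt (fun P : ℝ × ℝ × ℝ => (ndN k).gb (P - n)) (n + (ndN k).F θ a₀ b₀) :=
    ContinuousAt.comp (g := (ndN k).gb) ((ndN k).continuous_gb.continuousAt) c0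
  have c2 : ContinuousAt (fun P : ℝ × ℝ × ℝ => (ndN k).gu (P - n)) (n + (ndN k).F θ a₀ b₀) :=
    ContinuousAt.comp (g := (ndN k).gu) ((ndN k).continuousAt_gu hb₁) c0
  have c3 : ContinuousAt (fun P : ℝ × ℝ × ℝ => (ndN k).ga (P - n)) (n + (ndN k).F θ a₀ b₀) :=
    ContinuousAt.comp (g := (ndN k).ga) ((ndN k).continuousAt_ga hb₁) c0
  have e1 : ∀ᶠ P in nhds (n + (ndN k).F θ a₀ b₀),
      (ndN k).ga (P - n) ^ 2 + (ndN k).gb (P - n) ^ 2 < (1 / 16) ^ 2 := by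
    have h2 : ContinuousAt (fun P : ℝ × ℝ × ℝ => (ndN k).ga (P - n) ^ 2 + (ndN k).gb (P - n) ^ 2)
        (n + (ndN k).F θ a₀ b₀) := (c3.pow 2).add (c1.pow 2)
    refine h2.eventually (Iio_mem_nhds ?_)
    beta_reduce
    rw [g1, g3]
    exact h₀
  have e2 : ∀ᶠ P in nhds (n + (ndN k).F θ a₀ b₀), (ndN k).gu (P - n) < 1 := by
    refine c2.eventually (Iio_mem_nhds ?_)
    beta_reduce
    rw [g2]
    exact h1
  have e3 : ∀ᶠ P in nhds (n + (ndN k).F θ a₀ b₀), -1 < (ndN k).gu (P - n) := by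
    refine c2.eventually (Ioi_mem_nhds ?_)
    beta_reduce
    rw [g2]
    linarith
  rw [hP]
  have h3 := isOpenMap_qq3.image_mem_nhds ((e1.and (e2.and e3)))
  refine Filter.mem_of_superset h3 ?_
  rintro _ ⟨P, ⟨p1, p2, p3⟩, rfl⟩
  refine ⟨(((k.val : ℝ) + (ndN k).gu (P - n) : ℝ) : C26), (ndN k).ga (P - n), (ndN k).gb (P - n), p1, ?_⟩
  rw [Fq_node k p3.le p2.le, ← hn, (ndN k).F_g (bnd p1)]
  congr 1
  abel

/-! ### The tube in `S¹ × S²` -/

theorem rpoly_cont1 : Continuous (rpoly e1 (-1)) := rpoly_continuous _ _ facts3.1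

theorem rpoly_cont2 : Continuous (rpoly e2 1) := rpoly_continuous _ _ facts3.2

theorem knot_continuous (v : ℝ) : Continuous (knot v) :=
  continuous_polygon steps _ (by decide) (by decide) (by decide)

theorem Fq_continuous : Continuous fun p : C26 × ℝ × ℝ => Fq p.1 p.2.1 p.2.2 := by
  unfold Fq
  refine ((knot_continuous 0).comp continuous_fst).add ?_
  have h1 : Continuous fun p : C26 × ℝ × ℝ => rpoly e1 (-1) p.1 := rpoly_cont1.comp continuous_fst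
  have h2 : Continuous fun p : C26 × ℝ × ℝ => rpoly e2 1 p.1 := rpoly_cont2.comp continuous_fst
  refine Continuous.prodMk ?_ (Continuous.prodMk ?_ ?_)
  · refine (AddCircle.continuous_mk' 4).comp ?_
    fun_prop
  · fun_prop
  · fun_prop

theorem knot_shift (v : ℝ) (t : C26) : knot v t = knot 0 t + (((v : ℝ) : C4), v, v) := by
  obtain ⟨k, θ, h0, h1, rfl⟩ := exists_edge t
  rw [knot_apply v k h0 h1.le, knot_apply 0 k h0 h1.le]
  refine Prod.ext ?_ (Prod.ext ?_ ?_)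
  · simp only [Prod.fst_add]
    rw [← AddCircle.coe_add]
    congr 1
    ring
  · simp only [Prod.fst_add, Prod.snd_add]
    ring
  · simp only [Prod.snd_add]
    ring

theorem v_ne {v : ℝ} (hv0 : 0 < v) (hv1 : v < 1) (a b : ℤ) : (a : ℝ) ≠ v + b := by
  intro h
  have h1 : (b : ℝ) < a := by linarith
  have h2 : (a : ℝ) < b + 1 := by linarith
  have h3 : b < a := by exact_mod_cast h1
  have h4 : a < b + 1 := by exact_mod_cast h2
  omega

theorem v_ne_C4 {v : ℝ} (hv0 : 0 < v) (hv1 : v < 1) (a b : ℤ) :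
    ((a : ℝ) : C4) ≠ ((v + b : ℝ) : C4) := by
  intro h
  obtain ⟨m, hm⟩ := coe_eq_C4 h
  apply v_ne hv0 hv1 a (b + 4 * m)
  push_cast
  linarith

/-- The parallels are disjoint from the curve. -/
theorem knot_notMem {v : ℝ} (hv0 : 0 < v) (hv1 : v < 1) (t : C26) : knot v t ∉ K0 := by
  rintro ⟨t', h⟩
  obtain ⟨k, θ, h0, h1, rfl⟩ := exists_edge t
  obtain ⟨k', θ', h0', h1', rfl⟩ := exists_edge t'
  rw [knot_apply v k h0 h1.le, knot_apply 0 k' h0' h1'.le] at h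
  obtain ⟨x1, x2⟩ := Prod.ext_iff.mp h
  obtain ⟨x2, x3⟩ := Prod.ext_iff.mp x2
  simp only at x1 x2 x3
  have A := steps_axis k
  have A' := steps_axis k'
  have c1 : ¬ ((steps k).1 = 0 ∧ (steps k').1 = 0) := by
    rintro ⟨a, a'⟩
    rw [a, a'] at x1
    apply v_ne_C4 hv0 hv1 (nd k').1 (nd k).1
    simpa using x1
  have c2 : ¬ ((steps k).2.1 = 0 ∧ (steps k').2.1 = 0) := by
    rintro ⟨a, a'⟩
    rw [a, a'] at x2
    apply v_ne hv0 hv1 (nd k').2.1 (nd k).2.1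
    simpa using x2
  have c3 : ¬ ((steps k).2.2 = 0 ∧ (steps k').2.2 = 0) := by
    rintro ⟨a, a'⟩
    rw [a, a'] at x3
    apply v_ne hv0 hv1 (nd k').2.2 (nd k).2.2
    simpa using x3
  tauto

/-- The parametrised tube. -/
noncomputable def phiM (p : C26 × D2) : C4 × S2 :=
  emb (Fq p.1 ((p.2 : ℂ).re / 16) ((p.2 : ℂ).im / 16))

theorem phiM_continuous : Continuous phiM := by
  have h0 : Continuous fun p : C26 × D2 => (p.2 : ℂ) := continuous_subtype_val.comp continuous_snd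
  have h1 : Continuous fun p : C26 × D2 => (p.2 : ℂ).re := Complex.continuous_re.comp h0
  have h2 : Continuous fun p : C26 × D2 => (p.2 : ℂ).im := Complex.continuous_im.comp h0
  have h : Continuous fun p : C26 × D2 => (p.1, (p.2 : ℂ).re / 16, (p.2 : ℂ).im / 16) :=
    continuous_fst.prodMk ((h1.div_const 16).prodMk (h2.div_const 16))
  have h3 := Fq_continuous.comp h
  have h4 := continuous_emb.comp h3
  exact h4

theorem phiM_injective : Function.Injective phiM := by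
  rintro ⟨t, s⟩ ⟨t', s'⟩ h
  have hs : ∀ s : D2, |(s : ℂ).re / 16| ≤ 1 / 16 ∧ |(s : ℂ).im / 16| ≤ 1 / 16 := by
    intro s
    have h1 := mem_closedBall_zero_iff.1 s.2
    have h2 := Complex.abs_re_le_norm (s : ℂ)
    have h3 := Complex.abs_im_le_norm (s : ℂ)
    rw [abs_div, abs_div, abs_of_pos (by norm_num : (0 : ℝ) < 16)]
    constructor
    · linarith
    · linarith
  obtain ⟨h1, h2, h3⟩ := Fq_inj (hs s).1 (hs s).2 (hs s').1 (hs s').2 (emb_injective h)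
  refine Prod.ext h1 (Subtype.ext (Complex.ext ?_ ?_))
  · linarith
  · linarith

theorem phiM_isOpen : IsOpen (phiM '' {p | ‖(p.2 : ℂ)‖ < 1}) := by
  have h1 : phiM '' {p | ‖(p.2 : ℂ)‖ < 1} = {p : C4 × S2 | (p.2 : EuclideanSpace ℝ (Fin 3)) 2 ≠ 1} ∩
      iemb ⁻¹' {P : C4 × ℝ × ℝ | ∃ (t : C26) (a b : ℝ), a ^ 2 + b ^ 2 < (1 / 16) ^ 2 ∧
        Fq t a b = P} := by
    ext x
    constructor
    · rintro ⟨⟨t, s⟩, hs, rfl⟩
      refine ⟨emb_mem_OA _, ?_⟩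
      rw [Set.mem_preimage]
      unfold phiM
      rw [iemb_emb]
      refine ⟨t, _, _, ?_, rfl⟩
      have h2 : ‖(s : ℂ)‖ < 1 := hs
      have h3 : ‖(s : ℂ)‖ ^ 2 < 1 := by nlinarith [norm_nonneg (s : ℂ)]
      rw [← Complex.normSq_eq_norm_sq, Complex.normSq_apply] at h3
      simp only
      linarith
    · rintro ⟨hx, t, a, b, hab, h⟩
      have h2 : ‖(⟨16 * a, 16 * b⟩ : ℂ)‖ < 1 := by
        have h3 : ‖(⟨16 * a, 16 * b⟩ : ℂ)‖ ^ 2 < 1 ^ 2 := by
          rw [← Complex.normSq_eq_norm_sq, Complex.normSq_apply]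
          linarith
        exact lt_of_pow_lt_pow_left₀ 2 (by norm_num) h3
      refine ⟨(t, ⟨⟨16 * a, 16 * b⟩, mem_closedBall_zero_iff.2 h2.le⟩), h2, ?_⟩
      unfold phiM
      simp only
      rw [mul_div_cancel_left₀ _ (by norm_num : (16 : ℝ) ≠ 0),
        mul_div_cancel_left₀ _ (by norm_num : (16 : ℝ) ≠ 0), h]
      exact emb_iemb x hx
  rw [h1]
  exact continuousOn_iemb.isOpen_inter_preimage isOpen_OA isOpen_tube

theorem phiM_core (t : C26) : phiM (t, d0) = emb (knot 0 t) := by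
  have h : Fq t 0 0 = knot 0 t := by
    unfold Fq
    simp only [zero_mul, add_zero, AddCircle.coe_zero]
    exact add_zero _
  unfold phiM d0
  simp only [Complex.zero_re, Complex.zero_im, zero_div]
  rw [h]

theorem phiM_one (t : C26) : phiM (t, d1) = emb (knot (1 / 16) t) := by
  have h : Fq t (1 / 16) 0 = knot (1 / 16) t := by
    rw [knot_shift (1 / 16)]
    unfold Fq
    simp only [zero_mul, add_zero]
  unfold phiM d1
  simp only [Complex.one_re, Complex.one_im, zero_div]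
  rw [h]

theorem shift_continuous : Continuous fun p : C26 × unitInterval =>
    emb (knot 0 p.1 + (((1 / 16 + 7 / 16 * (p.2 : ℝ) : ℝ) : C4),
      1 / 16 + 7 / 16 * (p.2 : ℝ), 1 / 16 + 7 / 16 * (p.2 : ℝ))) := by
  have h : Continuous fun p : C26 × unitInterval => 1 / 16 + 7 / 16 * (p.2 : ℝ) := by fun_prop
  have h2 : Continuous fun p : C26 × unitInterval => (knot 0 p.1 +
      (((1 / 16 + 7 / 16 * (p.2 : ℝ) : ℝ) : C4),
      1 / 16 + 7 / 16 * (p.2 : ℝ), 1 / 16 + 7 / 16 * (p.2 : ℝ))) :=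
    ((knot_continuous 0).comp continuous_fst).add
      (((AddCircle.continuous_mk' 4).comp h).prodMk (h.prodMk h))
  exact continuous_emb.comp h2

theorem isTube_phiM : IsTube phiM := by
  refine ⟨phiM_continuous, phiM_injective, phiM_isOpen, phiM_core, ?_⟩
  refine ⟨fun p => emb (knot 0 p.1 + (((1 / 16 + 7 / 16 * (p.2 : ℝ) : ℝ) : C4),
    1 / 16 + 7 / 16 * (p.2 : ℝ), 1 / 16 + 7 / 16 * (p.2 : ℝ))), shift_continuous, ?_, ?_, ?_⟩
  · intro t
    beta_reduce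
    rw [← knot_shift, phiM_one]
    norm_num
  · intro t
    beta_reduce
    rw [← knot_shift]
    norm_num
  · rintro ⟨t, u⟩ h
    have hu0 := u.2.1
    have hu1 := u.2.2
    rw [emb_mem_KM, ← knot_shift] at h
    exact knot_notMem (by linarith) (by linarith) t h

end Pool.Agent.Helper26.Maz
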