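import Mathlib
import Pool.Agent.Helper7.Maz.Blk
import Pool.Agent.Helper32.MazA2
import Pool.Agent.Helper35.Maz.SphEx
import Pool.Agent.Helper84.Maz.A3b
import Pool.Agent.Helper85.MazEX1
import Pool.Agent.Helper26.Maz.Tube2
import Pool.Agent.Helper40.MazConv
import Pool.Agent.Helper36.Maz.T1
import Pool.Agent.Helper85.MazVK
import Pool.Agent.Helper96.MazGen
import Pool.Agent.Helper98.Maz.Deg
import Pool.Agent.Helper68.MazA1
import Pool.Agent.Helper1.MazZ2
import Pool.Agent.Helper89.Maz.Circ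
import Pool.Agent.Helper26.Maz.LabQ
import Pool.Agent.Helper26.LC.Assemble

/-!
# Mazur's manifold: assembly
-/

set_option autoImplicit false

namespace Pool.Agent.Helper26.Maz

open Pool.Agent.Helper26.LC Pool.Agent.Helper7.MazBlk

theorem home_centre (c : Blk) : home (centre c) = c := by
  unfold centre
  rw [home_pt]
  revert c
  decide +kernel

/-- holonomies from trivial labels are trivial -/
theorem triv_of_labels {Γ : Type*} [Group Γ] (H : HolOn (K0ᶜ) Γ) (g : Blk → Blk → Γ)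
    (p : C4 × ℝ × ℝ → Γ) (h : ∀ σ : Cell, σ ∉ Kc → ∀ {x y : C4 × ℝ × ℝ} (γ : Path x y),
      (∀ t, γ t ∈ star σ) → H.hol γ = (p x)⁻¹ * g (home x) (home y) * p y)
    (hg : Triv3 g) : H.Triv := by
  obtain ⟨k, hk⟩ := hg
  refine ⟨fun x => k (home x) * p x, ?_⟩
  intro x y γ hγ
  refine H.of_local (ι := {σ : Cell // σ ∉ Kc}) (fun σ => star σ.1) (fun σ => isOpen_star σ.1)
    ?_ (fun x => k (home x) * p x) ?_ γ hγ
  · rw [K0_compl]
    intro x hx
    obtain ⟨σ, hσ, hx⟩ := Set.mem_iUnion₂.1 hx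
    exact Set.mem_iUnion.2 ⟨⟨σ, hσ⟩, hx⟩
  · rintro ⟨σ, hσ⟩ x y γ hγ
    have hx := inc_home_of_mem (hγ 0).1
    have hy := inc_home_of_mem (hγ 1).1
    rw [γ.source] at hx
    rw [γ.target] at hy
    rw [h σ hσ γ (fun t => (hγ t).1), hk σ hσ _ _ hx hy]
    group

theorem labels_of_triv {Γ : Type*} [Group Γ] (H : HolOn (K0ᶜ) Γ) (g : Blk → Blk → Γ)
    (h : ∀ σ : Cell, σ ∉ Kc → ∀ {x y : C4 × ℝ × ℝ} (γ : Path x y),
      (∀ t, γ t ∈ star σ) → H.hol γ = g (home x) (home y))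
    (hT : H.Triv) : Triv3 g := by
  obtain ⟨P, hP⟩ := hT
  refine ⟨fun c => P (centre c), ?_⟩
  intro σ hσ c c' hc hc'
  obtain ⟨γ, hγ⟩ := star_path ((centre_mem σ c).2 hc) ((centre_mem σ c').2 hc')
  have h1 := h σ hσ γ hγ
  rw [home_centre, home_centre] at h1
  rw [← h1, hP γ (fun t => star_sub hσ (hγ t))]

theorem knot_half_continuous : Continuous (knot (1 / 2)) :=
  continuous_polygon steps _ (by decide) (by decide) (by decide)

theorem ring_continuous : Continuous ring :=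
  continuous_polygon ringSteps _ (by decide) (by decide) (by decide)

/-- the parallel curve -/
noncomputable def ellC : C(C26, C4 × ℝ × ℝ) := ⟨knot (1 / 2), knot_half_continuous⟩

noncomputable def ringC : C(C26, C4 × ℝ × ℝ) := ⟨ring, ring_continuous⟩

theorem K0_triv_Z2 (H : HolOn (K0ᶜ) (Multiplicative (ZMod 2))) (h1 : H.loop ellC = 1)
    (h2 : H.loop ringC = 1) : H.Triv := by
  obtain ⟨g, hg, p, h⟩ := blk_labels H
  refine triv_of_labels H g p h (labels_Z2 g hg ?_ ?_)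
  · rw [blk_loop H g p h ellC (fun t => rfl)] at h1
    have h3 : (p (ellC 0)) * ((p (ellC 0))⁻¹ * prodL g seqK * p (ellC 0)) * (p (ellC 0))⁻¹ = 1 := by
      rw [h1]; group
    rw [← h3]; group
  · rw [blk_ring H g p h ringC (fun t => rfl)] at h2
    have h3 : (p (ringC 0)) * ((p (ringC 0))⁻¹ * prodL g seqR * p (ringC 0)) * (p (ringC 0))⁻¹ = 1 := by
      rw [h2]; group
    rw [← h3]; group

theorem outerB_home {x : C4 × ℝ × ℝ} (h : x ∈ outerR) : outerB (home x) := by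
  unfold outerR at h
  unfold outerB home
  simp only [Set.mem_ofPred_eq] at h ⊢
  rcases h with h | h | h | h
  · left
    rw [if_pos h]
  · right; left
    rw [if_neg (by linarith), if_neg (by linarith), if_neg (by linarith), if_neg (by linarith)]
  · right; right; left
    rw [if_pos h]
  · right; right; right
    rw [if_neg (by linarith), if_neg (by linarith), if_neg (by linarith)]

theorem star_arc (σ : Cell) : ∃ j : ℤ, ∀ x ∈ star σ,
    x.1 ∈ (fun y : ℝ => (y : C4)) '' Set.Ioo ((j : ℝ) - 1) (j + 1) := by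
  obtain ⟨k, hk⟩ : ∃ k, σ.1.val = k := ⟨_, rfl⟩
  refine ⟨((k / 2 : ℕ) : ℤ), ?_⟩
  rintro x ⟨⟨y, hy, h1⟩, -⟩
  refine ⟨y, ?_, hy.symm⟩
  rw [hk] at h1
  obtain ⟨m, hm⟩ : ∃ m, k / 2 = m := ⟨_, rfl⟩
  rw [hm, Int.cast_natCast]
  have h3 : k = 2 * m ∨ k = 2 * m + 1 := by omega
  rw [abs_lt] at h1
  rcases h3 with h3 | h3
  · rw [if_pos (by omega), h3] at h1
    push_cast at h1
    constructor
    · linarith [h1.1]
    · linarith [h1.2]
  · rw [if_neg (by omega), h3] at h1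
    push_cast at h1
    constructor
    · linarith [h1.1]
    · linarith [h1.2]

theorem K0_exists_Q : ∃ (H : HolOn (K0ᶜ) Q) (T : HolOn (Set.univ : Set C4) Q),
    (∀ {x y : C4 × ℝ × ℝ} (γ : Path x y) (γ' : Path x.1 y.1), (∀ t, γ' t = (γ t).1) →
      (∀ t, γ t ∈ outerR) → H.hol γ = T.hol γ') ∧ H.loop ellC = 1 ∧ ¬ H.Triv := by
  obtain ⟨g, hg, hK, hT, t, ht⟩ := labels_Q
  obtain ⟨H, hH⟩ := blk_exists g hg
  obtain ⟨T, hTt⟩ := circ_exists t
  refine ⟨H, T, ?_, ?_, fun h => hT (labels_of_triv H g hH h)⟩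
  · intro x y γ γ' hγ' hγ
    have hsub : outerR ⊆ K0ᶜ := Pool.Agent.Helper35.MazSph.outerR_subset
    obtain ⟨T', hT'⟩ := T.exists_pull (S := outerR) (fun x : C4 × ℝ × ℝ => x.1)
      continuous_fst.continuousOn (fun _ _ => Set.mem_univ _)
    rw [← hT' γ hγ γ' hγ']
    change (H.restrict hsub).hol γ = _
    refine HolOn.ext_local (ι := {σ : Cell // σ ∉ Kc}) (H.restrict hsub) T' (fun σ => star σ.1)
      (fun σ => isOpen_star σ.1) ?_ ?_ γ hγ
    · refine hsub.trans ?_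
      rw [K0_compl]
      intro x hx
      obtain ⟨σ, hσ, hx⟩ := Set.mem_iUnion₂.1 hx
      exact Set.mem_iUnion.2 ⟨⟨σ, hσ⟩, hx⟩
    · rintro ⟨σ, hσ⟩ x y γ hγ
      change H.hol γ = _
      rw [hH σ hσ γ (fun t => (hγ t).1)]
      have h0 := hγ 0
      have h1 := hγ 1
      rw [γ.source] at h0
      rw [γ.target] at h1
      rw [hT' γ (fun t => (hγ t).2) (γ.map continuous_fst) (fun t => rfl)]
      obtain ⟨j, hj⟩ := star_arc σ
      rw [hTt j (γ.map continuous_fst) (fun s => hj _ (hγ s).1)]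
      exact ht σ hσ _ _ (inc_home_of_mem h0.1) (inc_home_of_mem h1.1) (outerB_home h0.2) (outerB_home h1.2)
  · rw [blk_loop H g (fun _ => 1) (fun σ hσ x y γ hγ => by rw [hH σ hσ γ hγ]; group) ellC
      (fun t => rfl), hK]
    group

section W

variable {W : Type*} [TopologicalSpace W] [T2Space W] {φ : C26 × D2 → C4 × S2}
  {iA : C4 × B3 → W} {iH : D2 × D2 → W}

/-- the parallel curve in `S¹ × S²` -/
noncomputable def ellM : C(C26, C4 × S2) :=
  ⟨fun t => emb (knot (1 / 2) t), Pool.Agent.Helper35.MazSph.continuous_emb.comp knot_half_continuous⟩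

/-- the parallel curve of the tube -/
noncomputable def ellT (hφ : IsTube φ) : C(C26, C4 × S2) :=
  ⟨fun t => φ (t, d1), hφ.1.comp (by fun_prop)⟩

theorem KM_conn : IsPathConnected (KMᶜ) := SPH_conn blk_conn

theorem bdW_conn (hφ : IsTube φ) (hW : IsAttached W φ iA iH) : IsPathConnected (bdW φ iA iH) :=
  A3_conn hφ hW KM_conn

theorem loop_tube (hφ : IsTube φ) {Γ : Type*} [Group Γ] (H : HolOn (KMᶜ) Γ) :
    ∃ u : Γ, H.loop ellM = u⁻¹ * H.loop (ellT hφ) * u := by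
  obtain ⟨-, -, -, -, G, hG, h0, h1, hS⟩ := id hφ
  exact H.loop_conj (ellT hφ) ellM G hG h0 h1 hS

theorem bdW_triv_Z2 (hφ : IsTube φ) (hW : IsAttached W φ iA iH)
    (H : HolOn (bdW φ iA iH) (Multiplicative (ZMod 2))) : H.Triv := by
  refine A3_triv hφ hW KM_conn (ellT hφ) (fun t => rfl) ?_ H
  intro H1 h1
  refine SPH_triv ellC (fun t => rfl) ringC (fun t => rfl) (fun H2 h2 h3 => K0_triv_Z2 H2 h2 h3)
    ellM (fun t => rfl) H1 ?_
  obtain ⟨u, hu⟩ := loop_tube hφ H1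
  rw [hu, h1]
  group

theorem bdW_exists_Q (hφ : IsTube φ) (hW : IsAttached W φ iA iH) :
    ∃ H' : HolOn (bdW φ iA iH) Q, ¬ H'.Triv := by
  obtain ⟨H, T, h1, h2, h3⟩ := K0_exists_Q
  obtain ⟨H', h4, h5⟩ := SPH_exists ellC (fun t => rfl) H T h1 h2 h3 ellM (fun t => rfl)
  refine A3_exists hφ hW KM_conn (ellT hφ) (fun t => rfl) H' ?_ h5
  obtain ⟨u, hu⟩ := loop_tube hφ H'
  rw [h4] at hu
  have h6 : u * (u⁻¹ * H'.loop (ellT hφ) * u) * u⁻¹ = 1 := by
    rw [← hu]; group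
  rw [← h6]; group

theorem no_LC (hφ : IsTube φ) (hW : IsAttached W φ iA iH) {V : Type*} [Fintype V] [DecidableEq V]
    (F : Finset (Finset V)) (h : Space F ≃ₜ W) : ¬ IsLC 4 F := by
  intro hLC
  obtain ⟨δ, hδ, hδ'⟩ := exists_delta φ hφ
  have := contractible_of_delta hφ.1 hW δ hδ hδ'
  obtain ⟨hF, G, L, hst, hfin⟩ := id hLC
  have hPM := pm_of_stage (by norm_num) hst hfin
  have hpc := bdW_conn hφ hW
  have hpc' : PathConnectedSpace (bdW φ iA iH) := isPathConnected_iff_pathConnectedSpace.1 hpc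
  obtain ⟨H, hH⟩ := bdW_exists_Q hφ hW
  obtain ⟨y, hy⟩ := hpc.nonempty
  obtain ⟨θ, hθ⟩ := exists_pi1_of_hol hpc ⟨y, hy⟩ H hH
  exact hθ (assemble (bdW φ iA iH) F hLC h
    (fun p => boundary_eq_gen (bdW φ iA iH) (isClosed_bdW hφ hW) (interior_chart hφ hW)
      (boundary_charts hφ hW) F hF hPM h p) hpc' ⟨y, hy⟩
    (fun θ => pi1_triv_of_hol hpc ⟨y, hy⟩ (bdW_triv_Z2 hφ hW) θ) θ)

end W

end Pool.Agent.Helper26.Maz
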